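import Mathlib

/-!
# There are no four distinct squares in arithmetic progression (Fermat)
-/

set_option autoImplicit false

namespace Pool.Agent.TH213.SP

/-- if `-x² ≡ y²` modulo 3 then `3 ∣ x` and `3 ∣ y` -/
lemma three_dvd {x y k : ℤ} (h : x ^ 2 + y ^ 2 = 3 * k) : (3 : ℤ) ∣ x ∧ (3 : ℤ) ∣ y := by
  have hx : x % 3 = 0 ∨ x % 3 = 1 ∨ x % 3 = 2 := by omega
  have hy : y % 3 = 0 ∨ y % 3 = 1 ∨ y % 3 = 2 := by omega
  have e1 : x = 3 * (x / 3) + x % 3 := by omega
  have e2 : y = 3 * (y / 3) + y % 3 := by omega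
  generalize x / 3 = a at e1
  generalize y / 3 = b at e2
  rcases hx with h1 | h1 | h1 <;> rcases hy with h2 | h2 | h2 <;> rw [h1] at e1 <;>
    rw [h2] at e2 <;> subst e1 <;> subst e2 <;>
    first
    | exact ⟨⟨a, by omega⟩, ⟨b, by omega⟩⟩
    | (exfalso; ring_nf at h; omega)

/-- odd squares are `1` modulo `8` -/
lemma odd_sq {x : ℤ} (h : Odd x) : ∃ k, x ^ 2 = 8 * k + 1 := by
  obtain ⟨y, rfl⟩ := h
  obtain ⟨z, hz⟩ := Int.even_mul_succ_self y
  exact ⟨z, by linear_combination 4 * hz⟩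

lemma even_sq {x : ℤ} (h : Even x) : ∃ k, x ^ 2 = 4 * k := by
  obtain ⟨y, rfl⟩ := h
  exact ⟨y ^ 2, by ring⟩

lemma not_both {x y : ℤ} (hc : IsCoprime x y) (hx : Even x) (hy : Even y) : False := by
  have h2 : (2 : ℤ) ∣ 1 := by
    obtain ⟨a, b, hab⟩ := hc
    rw [← hab]
    exact dvd_add (Dvd.dvd.mul_left hx.two_dvd _) (Dvd.dvd.mul_left hy.two_dvd _)
  omega

/-- parametrisation of `u² + m² = n²`, `m` even, `n` positive, `m` and `n` coprime -/
lemma param {n m u : ℤ} (hn : 0 < n) (hm : Even m) (hc : IsCoprime n m)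
    (h : n ^ 2 - m ^ 2 = u ^ 2) :
    Odd n ∧ ∃ p q : ℤ, m = 2 * (p * q) ∧ n = p ^ 2 + q ^ 2 ∧ IsCoprime p q := by
  have hno : Odd n := by
    rw [← Int.not_even_iff_odd]
    exact fun h1 => not_both hc h1 hm
  refine ⟨hno, ?_⟩
  have huo : Odd u := by
    rw [← Int.not_even_iff_odd]
    intro h1
    obtain ⟨k1, hk1⟩ := even_sq h1
    obtain ⟨k2, hk2⟩ := odd_sq hno
    obtain ⟨k3, hk3⟩ := even_sq hm
    omega
  have hcu : IsCoprime u m := by
    have h1 : IsCoprime (u ^ 2) m := by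
      rw [← h]
      have h2 : IsCoprime (n ^ 2) m := hc.pow_left
      have h3 := h2.add_mul_left_left (-m)
      have h4 : n ^ 2 - m ^ 2 = n ^ 2 + m * (-m) := by ring
      rw [h4]
      exact h3
    exact (IsCoprime.pow_left_iff (by norm_num)).1 h1
  have hpt : PythagoreanTriple u m n := by
    unfold PythagoreanTriple
    linear_combination -h
  obtain ⟨p, q, -, h2, h3, h4, -, -⟩ := hpt.coprime_classification'
    (Int.isCoprime_iff_gcd_eq_one.1 hcu) (Int.odd_iff.1 huo) hn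
  exact ⟨p, q, by rw [h2]; ring, h3, Int.isCoprime_iff_gcd_eq_one.2 h4⟩

/-- four numbers -/
lemma four {p q r s : ℤ} (h : p * q = r * s) (hp : p ≠ 0) :
    ∃ a b c d : ℤ, p = a * b ∧ q = c * d ∧ r = a * c ∧ s = b * d := by
  obtain ⟨a, b, ⟨c, hc⟩, ⟨d, hd⟩, hab⟩ :=
    exists_dvd_and_dvd_of_dvd_mul (Dvd.intro _ h : p ∣ r * s)
  refine ⟨a, b, c, d, hab, ?_, hc, hd⟩
  have : p * q = p * (c * d) := by
    rw [h, hc, hd, hab]; ring
  exact mul_left_cancel₀ hp this

lemma typeII {N M U V : ℤ} (h1 : N ^ 2 - M ^ 2 = U ^ 2) (h2 : 9 * N ^ 2 - M ^ 2 = V ^ 2)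
    (hM : Even M) (hM0 : M ≠ 0) (hc : IsCoprime N M) :
    ∃ n m u v : ℤ, m.natAbs ≤ M.natAbs ∧ Even m ∧ m ≠ 0 ∧ IsCoprime n m ∧
      n ^ 2 - m ^ 2 = u ^ 2 ∧ n ^ 2 - 9 * m ^ 2 = v ^ 2 := by
  obtain ⟨⟨m, rfl⟩, ⟨v, rfl⟩⟩ :=
    three_dvd (x := M) (y := V) (k := 3 * N ^ 2) (by linear_combination -h2)
  refine ⟨N, m, v, U, by omega, ?_, by omega, hc.of_mul_right_right, by linarith, by linarith⟩
  rcases Int.even_mul.1 hM with h | h
  · exact absurd h (by decide)
  · exact h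

lemma size {a b c d : ℕ} (ha : a ≠ 0) (hb : b ≠ 0) (hc : c ≠ 0) (hd : d ≠ 0) :
    a < 2 * (a * b * (c * d)) := by
  have h1 : 1 ≤ b * (c * d) := Nat.one_le_iff_ne_zero.2 (by positivity)
  have h2 : a * 1 ≤ a * (b * (c * d)) := Nat.mul_le_mul_left a h1
  have h3 : a * (b * (c * d)) = a * b * (c * d) := by ring
  omega

/-- the descent step -/
lemma step {p q r s : ℤ} (h : p * q = r * s) (h2 : p ^ 2 + q ^ 2 = 9 * r ^ 2 + s ^ 2)
    (hpq : IsCoprime p q) (hrs : IsCoprime r s) (h0 : p * q ≠ 0) (hodd : Odd (p ^ 2 + q ^ 2)) :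
    ∃ n m u v : ℤ, m.natAbs < (2 * (p * q)).natAbs ∧ Even m ∧ m ≠ 0 ∧ IsCoprime n m ∧
      n ^ 2 - m ^ 2 = u ^ 2 ∧ n ^ 2 - 9 * m ^ 2 = v ^ 2 := by
  obtain ⟨a, b, c, d, rfl, rfl, rfl, rfl⟩ := four h (left_ne_zero_of_mul h0)
  have ha0 : a ≠ 0 := by rintro rfl; simp at h0
  have hb0 : b ≠ 0 := by rintro rfl; simp at h0
  have hc0 : c ≠ 0 := by rintro rfl; simp at h0
  have hd0 : d ≠ 0 := by rintro rfl; simp at h0
  have hac : IsCoprime a c := hpq.of_mul_left_left.of_mul_right_left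
  have had : IsCoprime a d := hpq.of_mul_left_left.of_mul_right_right
  have hbc : IsCoprime b c := hpq.of_mul_left_right.of_mul_right_left
  have hbd : IsCoprime b d := hpq.of_mul_left_right.of_mul_right_right
  have hab : IsCoprime a b := hrs.of_mul_left_left.of_mul_right_left
  have hcd : IsCoprime c d := hrs.of_mul_left_right.of_mul_right_right
  have key : a ^ 2 * (b ^ 2 - 9 * c ^ 2) = d ^ 2 * (b ^ 2 - c ^ 2) := by
    linear_combination h2
  obtain ⟨k, hk⟩ : a ^ 2 ∣ b ^ 2 - c ^ 2 :=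
    (had.pow (m := 2) (n := 2)).dvd_of_dvd_mul_left (Dvd.intro _ key)
  have hk2 : b ^ 2 - 9 * c ^ 2 = d ^ 2 * k := by
    have h3 : a ^ 2 * (b ^ 2 - 9 * c ^ 2) = a ^ 2 * (d ^ 2 * k) := by
      rw [key, hk]; ring
    exact mul_left_cancel₀ (pow_ne_zero 2 ha0) h3
  have hk8 : k ∣ 8 := by
    obtain ⟨x, y, hxy⟩ := hbc.pow (m := 2) (n := 2)
    refine ⟨x * (9 * a ^ 2 - d ^ 2) + y * (a ^ 2 - d ^ 2), ?_⟩
    linear_combination (-8) * hxy + (9 * x + y) * hk - (x + y) * hk2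
  have hks : k = 1 ∨ k = -1 ∨ k = 2 ∨ k = -2 ∨ k = 4 ∨ k = -4 ∨ k = 8 ∨ k = -8 := by
    have h3 : k ≤ 8 := Int.le_of_dvd (by norm_num) hk8
    have h4 : -k ≤ 8 := Int.le_of_dvd (by norm_num) ((neg_dvd).2 hk8)
    have h5 : -8 ≤ k := by omega
    obtain ⟨t, ht⟩ := hk8
    interval_cases k <;> omega
  have hnat : (2 * (a * b * (c * d))).natAbs =
      2 * (a.natAbs * b.natAbs * (c.natAbs * d.natAbs)) := by
    simp [Int.natAbs_mul]
  have na := Int.natAbs_ne_zero.2 ha0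
  have nb := Int.natAbs_ne_zero.2 hb0
  have nc := Int.natAbs_ne_zero.2 hc0
  have nd := Int.natAbs_ne_zero.2 hd0
  have sa : a.natAbs < (2 * (a * b * (c * d))).natAbs := by
    rw [hnat]; exact size na nb nc nd
  have sb : b.natAbs < (2 * (a * b * (c * d))).natAbs := by
    rw [hnat]; have := size nb na nc nd
    rwa [Nat.mul_comm b.natAbs a.natAbs] at this
  have sc : c.natAbs < (2 * (a * b * (c * d))).natAbs := by
    rw [hnat]; have := size nc nd na nb
    rwa [Nat.mul_comm (c.natAbs * d.natAbs) _] at this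
  have sd : d.natAbs < (2 * (a * b * (c * d))).natAbs := by
    rw [hnat]; have := size nd nc na nb
    rwa [Nat.mul_comm (d.natAbs * c.natAbs) _, Nat.mul_comm d.natAbs c.natAbs] at this
  have hpar : (Even a ∧ Odd b ∧ Odd c ∧ Odd d) ∨ (Odd a ∧ Even b ∧ Odd c ∧ Odd d) ∨
      (Odd a ∧ Odd b ∧ Even c ∧ Odd d) ∨ (Odd a ∧ Odd b ∧ Odd c ∧ Even d) := by
    rcases Int.even_or_odd a with h3 | h3 <;> rcases Int.even_or_odd b with h4 | h4 <;>
      rcases Int.even_or_odd c with h5 | h5 <;> rcases Int.even_or_odd d with h6 | h6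
    · exact (not_both hab h3 h4).elim
    · exact (not_both hab h3 h4).elim
    · exact (not_both hab h3 h4).elim
    · exact (not_both hab h3 h4).elim
    · exact (not_both hac h3 h5).elim
    · exact (not_both hac h3 h5).elim
    · exact (not_both had h3 h6).elim
    · exact Or.inl ⟨h3, h4, h5, h6⟩
    · exact (not_both hbc h4 h5).elim
    · exact (not_both hbc h4 h5).elim
    · exact (not_both hbd h4 h6).elim
    · exact Or.inr (Or.inl ⟨h3, h4, h5, h6⟩)
    · exact (not_both hcd h5 h6).elim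
    · exact Or.inr (Or.inr (Or.inl ⟨h3, h4, h5, h6⟩))
    · exact Or.inr (Or.inr (Or.inr ⟨h3, h4, h5, h6⟩))
    · exfalso
      have h7 : Odd ((a * b) ^ 2) := (h3.mul h4).pow
      have h8 : Odd ((c * d) ^ 2) := (h5.mul h6).pow
      exact (Int.not_even_iff_odd.2 hodd) (h7.add_odd h8)
  rcases hpar with ⟨p1, p2, p3, p4⟩ | ⟨p1, p2, p3, p4⟩ | ⟨p1, p2, p3, p4⟩ | ⟨p1, p2, p3, p4⟩
  · obtain ⟨ka, hka⟩ := even_sq p1
    obtain ⟨kb, hkb⟩ := odd_sq p2
    obtain ⟨kc, hkc⟩ := odd_sq p3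
    obtain ⟨kd, hkd⟩ := odd_sq p4
    rcases hks with rfl | rfl | rfl | rfl | rfl | rfl | rfl | rfl
    · omega
    · omega
    · omega
    · omega
    · omega
    · omega
    · omega
    · exact ⟨d, a, c, b, sa, p1, ha0, had.symm, by omega, by omega⟩
  · obtain ⟨ka, hka⟩ := odd_sq p1
    obtain ⟨kb, hkb⟩ := even_sq p2
    obtain ⟨kc, hkc⟩ := odd_sq p3
    obtain ⟨kd, hkd⟩ := odd_sq p4
    rcases hks with rfl | rfl | rfl | rfl | rfl | rfl | rfl | rfl
    · omega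
    · obtain ⟨n, m, u, v, t1, t2, t3, t4, t5, t6⟩ := typeII (N := c) (M := b) (U := a) (V := d)
        (by omega) (by omega) p2 hb0 hbc.symm
      exact ⟨n, m, u, v, by omega, t2, t3, t4, t5, t6⟩
    · omega
    · omega
    · omega
    · omega
    · omega
    · omega
  · obtain ⟨ka, hka⟩ := odd_sq p1
    obtain ⟨kb, hkb⟩ := odd_sq p2
    obtain ⟨kc, hkc⟩ := even_sq p3
    obtain ⟨kd, hkd⟩ := odd_sq p4
    rcases hks with rfl | rfl | rfl | rfl | rfl | rfl | rfl | rfl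
    · exact ⟨b, c, a, d, sc, p3, hc0, hbc, by omega, by omega⟩
    · omega
    · omega
    · omega
    · omega
    · omega
    · omega
    · omega
  · obtain ⟨ka, hka⟩ := odd_sq p1
    obtain ⟨kb, hkb⟩ := odd_sq p2
    obtain ⟨kc, hkc⟩ := odd_sq p3
    obtain ⟨kd, hkd⟩ := even_sq p4
    rcases hks with rfl | rfl | rfl | rfl | rfl | rfl | rfl | rfl
    · omega
    · omega
    · omega
    · omega
    · omega
    · omega
    · obtain ⟨n, m, u, v, t1, t2, t3, t4, t5, t6⟩ := typeII (N := a) (M := d) (U := c) (V := b)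
        (by omega) (by omega) p4 hd0 had
      exact ⟨n, m, u, v, by omega, t2, t3, t4, t5, t6⟩
    · omega

/-- Fermat's descent -/
theorem descent (N : ℕ) : ∀ (n m u v : ℤ), m.natAbs ≤ N → Even m → m ≠ 0 → IsCoprime n m →
    n ^ 2 - m ^ 2 = u ^ 2 → n ^ 2 - 9 * m ^ 2 = v ^ 2 → False := by
  induction N with
  | zero => intro n m u v h1 _ h2; omega
  | succ N ih =>
    have pos : ∀ (n m u v : ℤ), 0 < n → m.natAbs ≤ N + 1 → Even m → m ≠ 0 → IsCoprime n m →
        n ^ 2 - m ^ 2 = u ^ 2 → n ^ 2 - 9 * m ^ 2 = v ^ 2 → False := by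
      intro n m u v hn hN hm hm0 hc h1 h2
      obtain ⟨hno, p, q, h3, h4, h5⟩ := param hn hm hc h1
      have hn3 : ¬ (3 : ℤ) ∣ n := by
        rintro ⟨t, rfl⟩
        obtain ⟨-, h6⟩ := three_dvd (x := u) (y := m) (k := 3 * t ^ 2)
          (by linear_combination -h1)
        have h7 : (3 : ℤ) ∣ 1 := by
          obtain ⟨a, b, hab⟩ := hc
          rw [← hab]
          exact dvd_add (Dvd.dvd.mul_left (Dvd.intro _ rfl) _) (Dvd.dvd.mul_left h6 _)
        omega
      have hc3 : IsCoprime n (3 * m) :=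
        IsCoprime.mul_right ((Int.prime_three.coprime_iff_not_dvd.2 hn3).symm) hc
      obtain ⟨-, r, s, h6, h7, h8⟩ := param (u := v) hn (hm.mul_left 3) hc3 (by linear_combination h2)
      have h9 : 3 * (p * q) = r * s := by linarith
      have hpq0 : p * q ≠ 0 := by
        intro h
        rw [h] at h3
        exact hm0 (by linarith)
      have hodd : Odd (p ^ 2 + q ^ 2) := h4 ▸ hno
      have main : ∃ n m' u v : ℤ, m'.natAbs < (2 * (p * q)).natAbs ∧ Even m' ∧ m' ≠ 0 ∧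
          IsCoprime n m' ∧ n ^ 2 - m' ^ 2 = u ^ 2 ∧ n ^ 2 - 9 * m' ^ 2 = v ^ 2 := by
        rcases Int.prime_three.dvd_or_dvd (Dvd.intro _ h9 : (3 : ℤ) ∣ r * s) with
          ⟨r', rfl⟩ | ⟨s', rfl⟩
        · exact step (r := r') (s := s) (by linarith) (by rw [← h4, h7]; ring) h5
            h8.of_mul_left_right hpq0 hodd
        · exact step (r := s') (s := r) (by linarith) (by rw [← h4, h7]; ring) h5
            h8.symm.of_mul_left_right hpq0 hodd
      obtain ⟨n', m', u', v', t1, t2, t3, t4, t5, t6⟩ := main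
      rw [← h3] at t1
      exact ih n' m' u' v' (by omega) t2 t3 t4 t5 t6
    intro n m u v hN hm hm0 hc h1 h2
    rcases lt_trichotomy n 0 with hn | hn | hn
    · exact pos (-n) m u v (by omega) hN hm hm0 hc.neg_left (by linarith) (by linarith)
    · subst hn
      have h3 : 0 < m ^ 2 := by positivity
      nlinarith [sq_nonneg u]
    · exact pos n m u v hn hN hm hm0 hc h1 h2

/-- Fermat: four squares in arithmetic progression are equal; coprime case -/
lemma four_squares_coprime {a b c d : ℤ} (hbc : IsCoprime b c) (h1 : b ^ 2 - a ^ 2 = c ^ 2 - b ^ 2)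
    (h2 : c ^ 2 - b ^ 2 = d ^ 2 - c ^ 2) : a ^ 2 = b ^ 2 := by
  have hb : Odd b := by
    rw [← Int.not_even_iff_odd]
    intro h3
    have h4 : Odd c := by
      rw [← Int.not_even_iff_odd]
      exact fun h => not_both hbc h3 h
    obtain ⟨k1, hk1⟩ := even_sq h3
    obtain ⟨k2, hk2⟩ := odd_sq h4
    rcases Int.even_or_odd d with h5 | h5
    · obtain ⟨k3, hk3⟩ := even_sq h5
      omega
    · obtain ⟨k3, hk3⟩ := odd_sq h5
      omega
  have hc : Odd c := by
    rw [← Int.not_even_iff_odd]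
    intro h3
    obtain ⟨k1, hk1⟩ := even_sq h3
    obtain ⟨k2, hk2⟩ := odd_sq hb
    rcases Int.even_or_odd a with h5 | h5
    · obtain ⟨k3, hk3⟩ := even_sq h5
      omega
    · obtain ⟨k3, hk3⟩ := odd_sq h5
      omega
  obtain ⟨s, hs⟩ := odd_sq hb
  obtain ⟨t, ht⟩ := odd_sq hc
  by_contra hne
  obtain ⟨x, y, hxy⟩ := hbc.pow (m := 2) (n := 2)
  refine descent (4 * (t - s)).natAbs (4 * (s + t) + 1) (4 * (t - s)) (b * c) (a * d) le_rfl
    ⟨2 * (t - s), by ring⟩ ?_ ⟨x + y, y - x, ?_⟩ ?_ ?_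
  · intro h
    apply hne
    omega
  · rw [hs, ht] at hxy
    linear_combination hxy
  · have : (b * c) ^ 2 = b ^ 2 * c ^ 2 := by ring
    rw [this, hs, ht]
    ring
  · have h3 : a ^ 2 = 2 * b ^ 2 - c ^ 2 := by linarith
    have h4 : d ^ 2 = 2 * c ^ 2 - b ^ 2 := by linarith
    have : (a * d) ^ 2 = a ^ 2 * d ^ 2 := by ring
    rw [this, h3, h4, hs, ht]
    ring

/-- Fermat: four squares in arithmetic progression are equal -/
theorem four_squares {a b c d : ℤ} (h1 : b ^ 2 - a ^ 2 = c ^ 2 - b ^ 2)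
    (h2 : c ^ 2 - b ^ 2 = d ^ 2 - c ^ 2) : a ^ 2 = b ^ 2 := by
  rcases Nat.eq_zero_or_pos (Int.gcd b c) with h0 | h0
  · rw [Int.gcd_eq_zero_iff] at h0
    obtain ⟨rfl, rfl⟩ := h0
    linarith
  obtain ⟨b', c', h3, h4, h5⟩ := Int.exists_gcd_one h0
  set g : ℤ := (Int.gcd b c : ℤ) with hg
  have hg0 : g ≠ 0 := by
    rw [hg]; exact_mod_cast h0.ne'
  have ha : g ∣ a := by
    rw [← Int.pow_dvd_pow_iff (n := 2) (by norm_num)]
    refine ⟨2 * b' ^ 2 - c' ^ 2, ?_⟩
    have : a ^ 2 = 2 * b ^ 2 - c ^ 2 := by linarith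
    rw [this, h4, h5]
    ring
  have hd : g ∣ d := by
    rw [← Int.pow_dvd_pow_iff (n := 2) (by norm_num)]
    refine ⟨2 * c' ^ 2 - b' ^ 2, ?_⟩
    have : d ^ 2 = 2 * c ^ 2 - b ^ 2 := by linarith
    rw [this, h4, h5]
    ring
  obtain ⟨a', ha'⟩ := ha
  obtain ⟨d', hd'⟩ := hd
  have hg2 : g ^ 2 ≠ 0 := pow_ne_zero 2 hg0
  have h6 : a' ^ 2 = b' ^ 2 := by
    refine four_squares_coprime (d := d') (Int.isCoprime_iff_gcd_eq_one.2 h3) ?_ ?_
    · apply mul_left_cancel₀ hg2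
      rw [ha', h4, h5] at h1
      linear_combination h1
    · apply mul_left_cancel₀ hg2
      rw [hd', h4, h5] at h2
      linear_combination h2
  rw [ha', h4]
  linear_combination g ^ 2 * h6

/-- an arithmetic progression with square products -/
theorem ap4 {P Q R S : ℤ} (h1 : Q - P = R - Q) (h2 : R - Q = S - R) (hP : P ≠ 0)
    (hQ : IsSquare (P * Q)) (hR : IsSquare (P * R)) (hS : IsSquare (P * S)) : P = Q := by
  obtain ⟨b, hb⟩ := hQ
  obtain ⟨c, hc⟩ := hR
  obtain ⟨d, hd⟩ := hS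
  have h3 := four_squares (a := P) (b := b) (c := c) (d := d)
    (by linear_combination P * h1 - 2 * hb + hc) (by linear_combination P * h2 - 2 * hc + hb + hd)
  have h4 : P * P = P * Q := by linear_combination h3 - hb
  exact mul_left_cancel₀ hP h4

/-- Fermat's theorem for rational numbers -/
theorem four_squares_rat {a b c d : ℚ} (h1 : b ^ 2 - a ^ 2 = c ^ 2 - b ^ 2)
    (h2 : c ^ 2 - b ^ 2 = d ^ 2 - c ^ 2) : a ^ 2 = b ^ 2 := by
  have ea : a * a.den = a.num := Rat.mul_den_eq_num a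
  have eb : b * b.den = b.num := Rat.mul_den_eq_num b
  have ec : c * c.den = c.num := Rat.mul_den_eq_num c
  have ed : d * d.den = d.num := Rat.mul_den_eq_num d
  set N : ℚ := a.den * b.den * c.den * d.den with hN
  have hN0 : N ≠ 0 := by
    have h1 : (a.den : ℚ) ≠ 0 := by exact_mod_cast a.den_nz
    have h2 : (b.den : ℚ) ≠ 0 := by exact_mod_cast b.den_nz
    have h3 : (c.den : ℚ) ≠ 0 := by exact_mod_cast c.den_nz
    have h4 : (d.den : ℚ) ≠ 0 := by exact_mod_cast d.den_nz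
    positivity
  have fa : ((a.num * b.den * c.den * d.den : ℤ) : ℚ) = a * N := by
    push_cast; rw [hN]; linear_combination (-(b.den : ℚ) * c.den * d.den) * ea
  have fb : ((b.num * a.den * c.den * d.den : ℤ) : ℚ) = b * N := by
    push_cast; rw [hN]; linear_combination (-(a.den : ℚ) * c.den * d.den) * eb
  have fc : ((c.num * a.den * b.den * d.den : ℤ) : ℚ) = c * N := by
    push_cast; rw [hN]; linear_combination (-(a.den : ℚ) * b.den * d.den) * ec
  have fd : ((d.num * a.den * b.den * c.den : ℤ) : ℚ) = d * N := by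
    push_cast; rw [hN]; linear_combination (-(a.den : ℚ) * b.den * c.den) * ed
  generalize a.num * (b.den : ℤ) * c.den * d.den = A at fa
  generalize b.num * (a.den : ℤ) * c.den * d.den = B at fb
  generalize c.num * (a.den : ℤ) * b.den * d.den = C at fc
  generalize d.num * (a.den : ℤ) * b.den * c.den = D at fd
  have h3 : (B : ℚ) ^ 2 - (A : ℚ) ^ 2 = (C : ℚ) ^ 2 - (B : ℚ) ^ 2 := by
    rw [fa, fb, fc]; linear_combination N ^ 2 * h1
  have h4 : (C : ℚ) ^ 2 - (B : ℚ) ^ 2 = (D : ℚ) ^ 2 - (C : ℚ) ^ 2 := by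
    rw [fb, fc, fd]; linear_combination N ^ 2 * h2
  have h5 : A ^ 2 = B ^ 2 := four_squares (c := C) (d := D) (by exact_mod_cast h3)
    (by exact_mod_cast h4)
  have h6 : (A : ℚ) ^ 2 = (B : ℚ) ^ 2 := by exact_mod_cast h5
  rw [fa, fb] at h6
  have h7 : a ^ 2 * N ^ 2 = b ^ 2 * N ^ 2 := by linear_combination h6
  exact mul_right_cancel₀ (pow_ne_zero 2 hN0) h7

/-- an arithmetic progression with square products, rational version -/
theorem ap4_rat {P Q R S : ℚ} (h1 : Q - P = R - Q) (h2 : R - Q = S - R) (hP : P ≠ 0)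
    (hQ : IsSquare (P * Q)) (hR : IsSquare (P * R)) (hS : IsSquare (P * S)) : P = Q := by
  obtain ⟨b, hb⟩ := hQ
  obtain ⟨c, hc⟩ := hR
  obtain ⟨d, hd⟩ := hS
  have h3 := four_squares_rat (a := P) (b := b) (c := c) (d := d)
    (by linear_combination P * h1 - 2 * hb + hc) (by linear_combination P * h2 - 2 * hc + hb + hd)
  have h4 : P * P = P * Q := by linear_combination h3 - hb
  exact mul_left_cancel₀ hP h4

end Pool.Agent.TH213.SP
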