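import Mathlib
import Pool.Agent.W262.TW.Stm2
import Pool.Agent.TH213.SP.Fermat

/-!
# Twists of split hyperelliptic curves: from rational points to coprime integers
-/

set_option autoImplicit false

namespace Pool.Agent.TH213.SP

open Finset Pool.Agent.W262.TW

/-- `d q²` integral, `d` squarefree: `q` is integral -/
lemma int_of {d m : ℤ} {q : ℚ} (hd : Squarefree d) (h : (d : ℚ) * q ^ 2 = m) :
    ∃ z : ℤ, q = z := by
  have h1 : d * q.num ^ 2 = m * (q.den : ℤ) ^ 2 := by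
    have h2 : (d : ℚ) * (q.num : ℚ) ^ 2 = m * (q.den : ℚ) ^ 2 := by
      rw [← h, ← Rat.mul_den_eq_num q]
      ring
    exact_mod_cast h2
  have hco : IsCoprime ((q.den : ℤ) ^ 2) (q.num ^ 2) := by
    apply IsCoprime.pow
    rw [Int.isCoprime_iff_gcd_eq_one, Int.gcd_comm]
    exact q.reduced
  have h3 : (q.den : ℤ) ^ 2 ∣ d :=
    hco.dvd_of_dvd_mul_right (Dvd.intro_left _ h1.symm)
  have h4 : IsUnit (q.den : ℤ) := hd _ (by rwa [← sq])
  have h5 : q.den = 1 := by
    have := Int.isUnit_iff_natAbs_eq.1 h4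
    simpa using this
  exact ⟨q.num, ((Rat.den_eq_one_iff q).1 h5).symm⟩

/-- uniqueness of the twist -/
lemma eq_of {d d' : ℤ} {y y' : ℚ} (hd : Squarefree d) (hd' : Squarefree d') (hy : y ≠ 0)
    (hy' : y' ≠ 0) (h : (d : ℚ) * y ^ 2 = d' * y' ^ 2) : d = d' := by
  have hd0 : (d : ℚ) ≠ 0 := by exact_mod_cast hd.ne_zero
  have hd0' : (d' : ℚ) ≠ 0 := by exact_mod_cast hd'.ne_zero
  obtain ⟨z, hz⟩ : ∃ z : ℤ, y / y' = z := by
    apply int_of (m := d') hd
    field_simp
    linear_combination h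
  obtain ⟨z', hz'⟩ : ∃ z : ℤ, y' / y = z := by
    apply int_of (m := d) hd'
    field_simp
    linear_combination -h
  have h1 : z * z' = 1 := by
    have : (z : ℚ) * z' = 1 := by
      rw [← hz, ← hz']
      field_simp
    exact_mod_cast this
  have h2 : z * z = 1 := by
    rcases Int.isUnit_iff.1 (IsUnit.of_mul_eq_one _ h1) with h | h <;> rw [h] <;> norm_num
  have h3 : (z : ℚ) * z = 1 := by exact_mod_cast h2
  have h4 : (d : ℚ) * (y / y') ^ 2 = d' := by
    field_simp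
    linear_combination h
  rw [hz, sq, h3, mul_one] at h4
  exact_mod_cast h4

variable {K : Type} [Fintype K]

/-- homogeneity -/
lemma homog (α β : K → ℤ) {n : ℕ} (hn : Fintype.card K = 2 * n) (c x w : ℚ) :
    ∏ k, ((α k : ℚ) * (c * x) + β k * (c * w)) = (c ^ n) ^ 2 * ∏ k, ((α k : ℚ) * x + β k * w) := by
  have h1 : ∀ k, (α k : ℚ) * (c * x) + β k * (c * w) = c * ((α k : ℚ) * x + β k * w) :=
    fun k => by ring
  simp_rw [h1]
  rw [prod_mul_distrib, prod_const, card_univ, hn, ← pow_mul, mul_comm n 2]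

/-- every rational point has coprime integral coordinates -/
lemma integral [Nonempty K] (α β : K → ℤ) {n : ℕ} (hn : Fintype.card K = 2 * n) {d : ℤ}
    (hd : Squarefree d) {x w y : ℚ} (hy : y ≠ 0)
    (h : (d : ℚ) * y ^ 2 = ∏ k, ((α k : ℚ) * x + β k * w)) :
    ∃ (x' w' y' : ℤ) (c : ℚ), c ≠ 0 ∧ x = c * x' ∧ w = c * w' ∧ IsCoprime x' w' ∧ y' ≠ 0 ∧
      d * y' ^ 2 = ∏ k, (α k * x' + β k * w') := by
  have hd0 : (d : ℚ) ≠ 0 := by exact_mod_cast hd.ne_zero
  have hxw : ¬ (x = 0 ∧ w = 0) := by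
    rintro ⟨rfl, rfl⟩
    have h1 : (d : ℚ) * y ^ 2 = 0 := by
      rw [h]
      obtain ⟨k⟩ := ‹Nonempty K›
      exact prod_eq_zero (mem_univ k) (by ring)
    exact mul_ne_zero hd0 (pow_ne_zero 2 hy) h1
  have hxd : (x.den : ℚ) ≠ 0 := by exact_mod_cast x.den_nz
  have hwd : (w.den : ℚ) ≠ 0 := by exact_mod_cast w.den_nz
  have hx : x * x.den = x.num := Rat.mul_den_eq_num x
  have hw : w * w.den = w.num := Rat.mul_den_eq_num w
  have hg : 0 < Int.gcd (x.num * w.den) (w.num * x.den) := by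
    rw [Nat.pos_iff_ne_zero, Ne, Int.gcd_eq_zero_iff]
    rintro ⟨h1, h2⟩
    apply hxw
    have h3 : (w.den : ℤ) ≠ 0 := by exact_mod_cast w.den_nz
    have h4 : (x.den : ℤ) ≠ 0 := by exact_mod_cast x.den_nz
    refine ⟨?_, ?_⟩
    · rw [← Rat.num_eq_zero]
      exact (mul_eq_zero.1 h1).resolve_right h3
    · rw [← Rat.num_eq_zero]
      exact (mul_eq_zero.1 h2).resolve_right h4
  obtain ⟨x', w', h1, h2, h3⟩ := Int.exists_gcd_one hg
  generalize hgd : Int.gcd (x.num * w.den) (w.num * x.den) = g at *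
  have hg0 : (g : ℚ) ≠ 0 := by exact_mod_cast hg.ne'
  set c : ℚ := g / (x.den * w.den) with hc
  have hc0 : c ≠ 0 := div_ne_zero hg0 (mul_ne_zero hxd hwd)
  have h2q : (x.num : ℚ) * w.den = x' * g := by exact_mod_cast h2
  have h3q : (w.num : ℚ) * x.den = w' * g := by exact_mod_cast h3
  have hx2 : x = c * x' := by
    rw [hc]
    field_simp
    rw [← hx] at h2q
    linear_combination h2q
  have hw2 : w = c * w' := by
    rw [hc]
    field_simp
    rw [← hw] at h3q
    linear_combination h3q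
  rw [hx2, hw2, homog α β hn] at h
  have hcn : c ^ n ≠ 0 := pow_ne_zero n hc0
  have h4 : (d : ℚ) * (y / c ^ n) ^ 2 = ((∏ k, (α k * x' + β k * w') : ℤ) : ℚ) := by
    push_cast
    field_simp
    linear_combination h
  obtain ⟨y', hy'⟩ := int_of hd h4
  refine ⟨x', w', y', c, hc0, hx2, hw2, Int.isCoprime_iff_gcd_eq_one.2 h1, ?_, ?_⟩
  · rintro rfl
    rw [Int.cast_zero, div_eq_zero_iff] at hy'
    exact hy'.elim hy hcn
  · rw [hy'] at h4
    exact_mod_cast h4

end Pool.Agent.TH213.SP
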