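import Mathlib
import Pool.Agent.W262.TW.Full
import Pool.Agent.TH213.SP.Red

/-!
# Twists of split hyperelliptic curves: the general theorem
-/

set_option autoImplicit false

namespace Pool.Agent.TH213.SP

open Finset Pool.Agent.W262.TW

/-- the determinant of the `i`-th and the `k`-th linear form -/
def det {K : Type} (α β : K → ℤ) (i k : K) : ℤ := α i * β k - α k * β i

/-- the linear forms are pairwise independent, and for `i ≠ k` the products
`det i l * det k l`, `l ≠ i, k`, are not all in the same square class -/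
def Generic {K : Type} (α β : K → ℤ) : Prop :=
  (∀ i k, i ≠ k → det α β i k ≠ 0) ∧
  ∀ i k, i ≠ k → ∃ l l', l ≠ i ∧ l ≠ k ∧ l' ≠ i ∧ l' ≠ k ∧
    ¬ IsSquare (det α β i l * det α β i l' * (det α β k l * det α β k l'))

/-- the value of the `k`-th linear form -/
def form {K : Type} (α β : K → ℤ) (k : K) (x w : ℚ) : ℚ := α k * x + β k * w

/-- `(x : w : y)` is a rational point with `y ≠ 0` of the curve `d y² = ∏ k, form k x w` -/
def Point {K : Type} [Fintype K] (α β : K → ℤ) (d : ℤ) (x w y : ℚ) : Prop :=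
  y ≠ 0 ∧ (d : ℚ) * y ^ 2 = ∏ k, form α β k x w

/-- `(x : w)` is of constant type: for some `i`, the numbers `det i k * form k x w`, `k ≠ i`, are
all in the same square class -/
def Const {K : Type} (α β : K → ℤ) (x w : ℚ) : Prop :=
  ∃ i, ∀ k l, k ≠ i → l ≠ i →
    IsSquare (det α β i k * form α β k x w * (det α β i l * form α β l x w))

variable {K : Type} [Fintype K] {α β : K → ℤ}

omit [Fintype K] in
lemma const_smul {x w : ℚ} (c : ℚ) (h : Const α β x w) : Const α β (c * x) (c * w) := by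
  obtain ⟨i, hi⟩ := h
  refine ⟨i, fun k l hk hl => ?_⟩
  obtain ⟨r, hr⟩ := hi k l hk hl
  refine ⟨c * r, ?_⟩
  unfold form at hr ⊢
  linear_combination c ^ 2 * hr

/-- the points of nonconstant type -/
lemma bad_of_point {n : ℕ} (hn : Fintype.card K = 2 * n) [Nonempty K] {d : ℤ} (hd : Squarefree d)
    {x w y : ℚ} (h : Point α β d x w y) (hc : ¬ Const α β x w) : BadS α β d := by
  obtain ⟨x', w', y', c, hc0, hx, hw, hco, hy', heq⟩ := integral α β hn hd h.1 h.2
  refine ⟨x', w', y', hco, hy', heq, ?_⟩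
  intro i
  by_contra hne
  push Not at hne
  apply hc
  rw [hx, hw]
  apply const_smul
  refine ⟨i, fun k l hk hl => ?_⟩
  obtain ⟨r, hr⟩ := hne k l hk hl
  refine ⟨r, ?_⟩
  have h2 : (((α k * x' + β k * w') * (α l * x' + β l * w') *
      (cc α β i k * cc α β i l) : ℤ) : ℚ) = ((r * r : ℤ) : ℚ) := by rw [hr]
  push_cast at h2
  have h3 : det α β i k = cc α β i k := rfl
  have h4 : det α β i l = cc α β i l := rfl
  rw [h3, h4]
  unfold form
  linear_combination h2

lemma fin_le (X : ℕ) (P : ℤ → Prop) : {d : ℤ | d.natAbs ≤ X ∧ P d}.Finite := by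
  apply (Set.finite_Icc (-(X : ℤ)) X).subset
  intro d hd
  have h1 : d.natAbs ≤ X := hd.1
  rw [Set.mem_Icc]
  omega

lemma one_le {X : ℕ} (hX : 3 ≤ X) : 1 ≤ (X : ℝ) * (Real.log X) ^ (-(1 / 5 : ℝ)) := by
  have hX3 : (3 : ℝ) ≤ X := by exact_mod_cast hX
  have hX0 : (0 : ℝ) < X := by linarith
  have h1 : 1 ≤ Real.log X := by
    rw [Real.le_log_iff_exp_le hX0]
    exact (Real.exp_one_lt_d9.le.trans (by norm_num)).trans hX3
  have h0 : 0 < Real.log X := by linarith
  have h2 : (Real.log X) ^ (1 / 5 : ℝ) ≤ X := by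
    calc (Real.log X) ^ (1 / 5 : ℝ) ≤ (Real.log X) ^ (1 : ℝ) :=
          Real.rpow_le_rpow_of_exponent_le h1 (by norm_num)
      _ = Real.log X := Real.rpow_one _
      _ ≤ X := (Real.log_le_sub_one_of_pos hX0).trans (by linarith)
  have h3 : 0 < (Real.log X) ^ (1 / 5 : ℝ) := Real.rpow_pos_of_pos h0 _
  rw [Real.rpow_neg h0.le, ← div_eq_mul_inv, le_div_iff₀ h3, one_mul]
  exact h2

/-- the twists with a point of constant type form a finite set -/
lemma finite_const {n : ℕ} (hn : Fintype.card K = 2 * n)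
    (hF : {t : ℚ | (∀ k, form α β k t 1 ≠ 0) ∧ Const α β t 1}.Finite) :
    {d : ℤ | Squarefree d ∧ ∃ x w y : ℚ, Point α β d x w y ∧ Const α β x w}.Finite := by
  have hsub : ∀ x w : ℚ, {d : ℤ | Squarefree d ∧ ∃ y, Point α β d x w y}.Subsingleton := by
    rintro x w d ⟨h1, y, hy, h2⟩ d' ⟨h3, y', hy', h4⟩
    exact eq_of h1 h3 hy hy' (h2.trans h4.symm)
  have hfin : ((⋃ t ∈ {t : ℚ | (∀ k, form α β k t 1 ≠ 0) ∧ Const α β t 1},
      {d : ℤ | Squarefree d ∧ ∃ y, Point α β d t 1 y}) ∪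
      {d : ℤ | Squarefree d ∧ ∃ y, Point α β d 1 0 y}).Finite := by
    apply Set.Finite.union
    · exact hF.biUnion fun t _ => (hsub t 1).finite
    · exact (hsub 1 0).finite
  apply hfin.subset
  rintro d ⟨hd, x, w, y, ⟨hy, h⟩, hc⟩
  have hd0 : (d : ℚ) ≠ 0 := by exact_mod_cast hd.ne_zero
  have hprod : ∏ k, form α β k x w ≠ 0 := by
    rw [← h]
    exact mul_ne_zero hd0 (pow_ne_zero 2 hy)
  by_cases hw : w = 0
  · right
    subst hw
    by_cases hx : x = 0
    · subst hx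
      have hK : IsEmpty K := by
        by_contra hK
        rw [not_isEmpty_iff] at hK
        obtain ⟨k⟩ := hK
        exact hprod (prod_eq_zero (mem_univ k) (by unfold form; ring))
      refine ⟨hd, y, hy, h.trans ?_⟩
      rw [prod_of_isEmpty, prod_of_isEmpty]
    refine ⟨hd, y / x ^ n, div_ne_zero hy (pow_ne_zero n hx), ?_⟩
    have h1 := homog α β hn x 1 0
    have h2 : ∏ k, form α β k x 0 = (x ^ n) ^ 2 * ∏ k, form α β k 1 0 := by
      unfold form
      rw [← h1]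
      simp
    rw [h2] at h
    have hxn : x ^ n ≠ 0 := pow_ne_zero n hx
    field_simp
    linear_combination h
  · left
    have hwn : w ^ n ≠ 0 := pow_ne_zero n hw
    have e1 : w * (x / w) = x := by field_simp
    have h2 : ∏ k, form α β k x w = (w ^ n) ^ 2 * ∏ k, form α β k (x / w) 1 := by
      have h1 := homog α β hn w (x / w) 1
      rw [e1, mul_one] at h1
      exact h1
    rw [Set.mem_iUnion₂]
    refine ⟨x / w, ⟨fun k hk => ?_, ?_⟩, hd, y / w ^ n, div_ne_zero hy hwn, ?_⟩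
    · apply hprod
      rw [h2, prod_eq_zero (mem_univ k) hk, mul_zero]
    · have h3 := const_smul (1 / w) hc
      have e2 : 1 / w * x = x / w := by ring
      have e3 : 1 / w * w = 1 := by field_simp
      rwa [e2, e3] at h3
    · rw [h2] at h
      field_simp
      linear_combination h

theorem gen (K : Type) [Fintype K] (α β : K → ℤ) (h6 : 6 ≤ Fintype.card K)
    (hev : Even (Fintype.card K)) (hg : Generic α β) :
    (∃ C : ℝ, ∀ X : ℕ, 3 ≤ X →
      ({d : ℤ | d.natAbs ≤ X ∧ Squarefree d ∧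
        ∃ x w y : ℚ, Point α β d x w y ∧ ¬ Const α β x w}.ncard : ℝ) ≤
          C * X * (Real.log X) ^ (-(1 / 5 : ℝ))) ∧
    ({t : ℚ | (∀ k, form α β k t 1 ≠ 0) ∧ Const α β t 1}.Finite →
      ∃ C : ℝ, ∀ X : ℕ, 3 ≤ X →
        ({d : ℤ | d.natAbs ≤ X ∧ Squarefree d ∧ ∃ x w y : ℚ, Point α β d x w y}.ncard : ℝ) ≤
          C * X * (Real.log X) ^ (-(1 / 5 : ℝ))) := by
  classical
  obtain ⟨n, hn⟩ := hev
  have hn2 : Fintype.card K = 2 * n := by omega
  have : Nonempty K := Fintype.card_pos_iff.1 (by omega)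
  have main : ∃ C : ℝ, ∀ X : ℕ, 3 ≤ X →
      ({d : ℤ | d.natAbs ≤ X ∧ Squarefree d ∧
        ∃ x w y : ℚ, Point α β d x w y ∧ ¬ Const α β x w}.ncard : ℝ) ≤
          C * X * (Real.log X) ^ (-(1 / 5 : ℝ)) := by
    obtain ⟨C, hC⟩ := fins_all K α β (by omega) hg.1 hg.2
    refine ⟨C, fun X hX => le_trans ?_ (hC X hX)⟩
    refine Nat.cast_le.2 (Set.ncard_le_ncard ?_ (fin_le X _))
    rintro d ⟨h1, h2, x, w, y, h3, h4⟩
    exact ⟨h1, h2, bad_of_point hn2 h2 h3 h4⟩
  refine ⟨main, fun hF => ?_⟩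
  obtain ⟨C, hC⟩ := main
  have hfin := finite_const hn2 hF
  refine ⟨C + ({d : ℤ | Squarefree d ∧ ∃ x w y : ℚ, Point α β d x w y ∧
    Const α β x w}.ncard : ℝ), fun X hX => ?_⟩
  have h1 : {d : ℤ | d.natAbs ≤ X ∧ Squarefree d ∧ ∃ x w y : ℚ, Point α β d x w y} ⊆
      {d : ℤ | d.natAbs ≤ X ∧ Squarefree d ∧
        ∃ x w y : ℚ, Point α β d x w y ∧ ¬ Const α β x w} ∪
      {d : ℤ | Squarefree d ∧ ∃ x w y : ℚ, Point α β d x w y ∧ Const α β x w} := by
    rintro d ⟨h1, h2, x, w, y, h3⟩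
    by_cases h4 : Const α β x w
    · exact Or.inr ⟨h2, x, w, y, h3, h4⟩
    · exact Or.inl ⟨h1, h2, x, w, y, h3, h4⟩
  have h2 := (Set.ncard_le_ncard h1 ((fin_le X _).union hfin)).trans (Set.ncard_union_le _ _)
  have h3 : ({d : ℤ | d.natAbs ≤ X ∧ Squarefree d ∧
      ∃ x w y : ℚ, Point α β d x w y}.ncard : ℝ) ≤
      ({d : ℤ | d.natAbs ≤ X ∧ Squarefree d ∧
        ∃ x w y : ℚ, Point α β d x w y ∧ ¬ Const α β x w}.ncard : ℝ) +
      ({d : ℤ | Squarefree d ∧ ∃ x w y : ℚ, Point α β d x w y ∧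
        Const α β x w}.ncard : ℝ) := by exact_mod_cast h2
  have h4 := hC X hX
  have h5 := mul_le_mul_of_nonneg_left (one_le hX)
    (Nat.cast_nonneg ({d : ℤ | Squarefree d ∧ ∃ x w y : ℚ, Point α β d x w y ∧
      Const α β x w}.ncard) : (0 : ℝ) ≤ _)
  linarith

end Pool.Agent.TH213.SP
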