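import Mathlib
import Pool.Agent.TH213.SP.Gen
import Pool.Agent.TH213.SP.Fermat

/-!
# Twists of split hyperelliptic curves: an unconditional criterion from Fermat's theorem
-/

set_option autoImplicit false

namespace Pool.Agent.TH213.SP

open Finset Pool.Agent.W262.TW

/-- `A ∪ {∞}` is generic -/
def GenSet (A : Finset ℤ) : Prop :=
  (∀ a ∈ A, ∃ l ∈ A, ∃ l' ∈ A, l ≠ a ∧ l' ≠ a ∧ ¬ IsSquare ((a - l) * (a - l'))) ∧
  ∀ a ∈ A, ∀ b ∈ A, a ≠ b → ∃ l ∈ A, l ≠ a ∧ l ≠ b ∧ ¬ IsSquare ((a - l) * (b - l))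

/-- `A` contains a four term arithmetic progression, and so does
`{0} ∪ {1 / (b - a) | b ∈ A, b ≠ a}` for every `a ∈ A` -/
def FermatSet (A : Finset ℤ) : Prop :=
  (∃ s t : ℚ, t ≠ 0 ∧ ∀ j ∈ range 4, ∃ b ∈ A, s + j * t = b) ∧
  ∀ a ∈ A, ∃ s t : ℚ, t ≠ 0 ∧ ∀ j ∈ range 4,
    s + j * t = 0 ∨ ∃ b ∈ A, b ≠ a ∧ s + j * t = 1 / (b - a)

section

variable (A : Finset ℤ)

/-- the forms `x - a w`, `a ∈ A`, and `w` -/
def al : Option A → ℤ
  | none => 0
  | some _ => 1

/-- the forms `x - a w`, `a ∈ A`, and `w` -/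
def be : Option A → ℤ
  | none => 1
  | some a => -(a : ℤ)

lemma cc_none_none : cc (al A) (be A) none none = 0 := by simp [cc, al, be]

lemma cc_none_some (b : A) : cc (al A) (be A) none (some b) = -1 := by simp [cc, al, be]

lemma cc_some_none (b : A) : cc (al A) (be A) (some b) none = 1 := by simp [cc, al, be]

lemma cc_some_some (a b : A) : cc (al A) (be A) (some a) (some b) = a - b := by
  simp [cc, al, be]; ring

variable {A}

lemma generic_of (h : GenSet A) : Generic (al A) (be A) := by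
  constructor
  · intro i k hik
    change cc (al A) (be A) i k ≠ 0
    rcases i with _ | a <;> rcases k with _ | b
    · exact absurd rfl hik
    · rw [cc_none_some]; norm_num
    · rw [cc_some_none]; norm_num
    · rw [cc_some_some, sub_ne_zero]
      intro hab
      exact hik (congrArg some (Subtype.ext hab))
  · intro i k hik
    change ∃ l l', l ≠ i ∧ l ≠ k ∧ l' ≠ i ∧ l' ≠ k ∧
      ¬ IsSquare (cc (al A) (be A) i l * cc (al A) (be A) i l' *
        (cc (al A) (be A) k l * cc (al A) (be A) k l'))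
    rcases i with _ | a <;> rcases k with _ | b
    · exact absurd rfl hik
    · obtain ⟨l, hl, l', hl', h1, h2, h3⟩ := h.1 b b.2
      refine ⟨some ⟨l, hl⟩, some ⟨l', hl'⟩, by simp, ?_, by simp, ?_, ?_⟩
      · intro h4
        exact h1 (congrArg Subtype.val (Option.some.inj h4))
      · intro h4
        exact h2 (congrArg Subtype.val (Option.some.inj h4))
      · rw [cc_none_some, cc_none_some, cc_some_some, cc_some_some]
        simpa using h3
    · obtain ⟨l, hl, l', hl', h1, h2, h3⟩ := h.1 a a.2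
      refine ⟨some ⟨l, hl⟩, some ⟨l', hl'⟩, ?_, by simp, ?_, by simp, ?_⟩
      · intro h4
        exact h1 (congrArg Subtype.val (Option.some.inj h4))
      · intro h4
        exact h2 (congrArg Subtype.val (Option.some.inj h4))
      · rw [cc_none_some, cc_none_some, cc_some_some, cc_some_some]
        simpa using h3
    · have hab : (a : ℤ) ≠ b := fun h4 => hik (congrArg some (Subtype.ext h4))
      obtain ⟨l, hl, h1, h2, h3⟩ := h.2 a a.2 b b.2 hab
      refine ⟨some ⟨l, hl⟩, none, ?_, ?_, by simp, by simp, ?_⟩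
      · intro h4
        exact h1 (congrArg Subtype.val (Option.some.inj h4))
      · intro h4
        exact h2 (congrArg Subtype.val (Option.some.inj h4))
      · rw [cc_some_none, cc_some_none, cc_some_some, cc_some_some]
        simpa using h3

/-- points of constant type are excluded by Fermat's theorem -/
lemma no_const (h : FermatSet A) {x w : ℤ} (hs : ∀ k, al A k * x + be A k * w ≠ 0) :
    NC (cc (al A) (be A)) (fun k => al A k * x + be A k * w) := by
  have hw : w ≠ 0 := by
    have := hs none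
    simpa [al, be] using this
  have hx : ∀ a : A, x - a * w ≠ 0 := by
    intro a h1
    apply hs (some a)
    simp only [al, be]
    linear_combination h1
  intro i
  by_contra hne
  push Not at hne
  rcases i with _ | a
  · obtain ⟨s, t, ht, hst⟩ := h.1
    have key : ∀ j ∈ range 4, ∃ b : A, s + j * t = ((b : ℤ) : ℚ) := by
      intro j hj
      obtain ⟨b, hb, h1⟩ := hst j hj
      exact ⟨⟨b, hb⟩, h1⟩
    obtain ⟨b0, h0⟩ := key 0 (by simp)
    obtain ⟨b1, h1⟩ := key 1 (by simp)
    obtain ⟨b2, h2⟩ := key 2 (by simp)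
    obtain ⟨b3, h3⟩ := key 3 (by simp)
    push_cast at h0 h1 h2 h3
    have sq : ∀ b b' : A, IsSquare (((x : ℚ) - b * w) * (x - b' * w)) := by
      intro b b'
      obtain ⟨r, hr⟩ := hne (some b) (some b') (by simp) (by simp)
      rw [cc_none_some, cc_none_some] at hr
      simp only [al, be] at hr
      refine ⟨r, ?_⟩
      have h4 : (((x - b * w) * (x - b' * w) : ℤ) : ℚ) = ((r * r : ℤ) : ℚ) := by
        rw [← hr]
        congr 1
        ring
      push_cast at h4
      exact h4
    have hP : ((x : ℚ) - b0 * w) ≠ 0 := by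
      have := hx b0
      exact_mod_cast this
    have h5 := ap4_rat (P := (x : ℚ) - b0 * w) (Q := x - b1 * w) (R := x - b2 * w)
      (S := x - b3 * w) (by rw [← h0, ← h1, ← h2]; ring) (by rw [← h1, ← h2, ← h3]; ring) hP
      (sq b0 b1) (sq b0 b2) (sq b0 b3)
    rw [← h0, ← h1] at h5
    have h6 : t * w = 0 := by linear_combination h5
    rcases mul_eq_zero.1 h6 with h7 | h7
    · exact ht h7
    · exact hw (by exact_mod_cast h7)
  · obtain ⟨s, t, ht, hst⟩ := h.2 a a.2
    have key : ∀ j ∈ range 4, ∃ o : Option A, o ≠ some a ∧ ∃ m : ℚ, m ≠ 0 ∧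
        (cc (al A) (be A) (some a) o : ℚ) * (al A o * x + be A o * w) =
          m ^ 2 * (w - (s + j * t) * (x - a * w)) := by
      intro j hj
      rcases hst j hj with h1 | ⟨b, hb, hba, h1⟩
      · refine ⟨none, by simp, 1, one_ne_zero, ?_⟩
        rw [cc_some_none, h1]
        simp [al, be]
      · refine ⟨some ⟨b, hb⟩, ?_, b - a, ?_, ?_⟩
        · intro h4
          exact hba (congrArg Subtype.val (Option.some.inj h4))
        · rw [sub_ne_zero]
          exact_mod_cast hba
        · have h2 : (b : ℚ) - a ≠ 0 := by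
            rw [sub_ne_zero]
            exact_mod_cast hba
          rw [cc_some_some, h1]
          simp only [al, be]
          push_cast
          field_simp
          ring
    obtain ⟨o0, g0, m0, n0, h0⟩ := key 0 (by simp)
    obtain ⟨o1, g1, m1, n1, h1⟩ := key 1 (by simp)
    obtain ⟨o2, g2, m2, n2, h2⟩ := key 2 (by simp)
    obtain ⟨o3, g3, m3, n3, h3⟩ := key 3 (by simp)
    push_cast at h0 h1 h2 h3
    have sq : ∀ (o o' : Option A) (m m' P P' : ℚ), o ≠ some a → o' ≠ some a → m ≠ 0 → m' ≠ 0 →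
        (cc (al A) (be A) (some a) o : ℚ) * (al A o * x + be A o * w) = m ^ 2 * P →
        (cc (al A) (be A) (some a) o' : ℚ) * (al A o' * x + be A o' * w) = m' ^ 2 * P' →
        IsSquare (P * P') := by
      intro o o' m m' P P' ho ho' hm hm' e e'
      obtain ⟨r, hr⟩ := hne o o' ho ho'
      refine ⟨r / (m * m'), ?_⟩
      have h4 : (((al A o * x + be A o * w) * (al A o' * x + be A o' * w) *
        (cc (al A) (be A) (some a) o * cc (al A) (be A) (some a) o') : ℤ) : ℚ) =
          ((r * r : ℤ) : ℚ) := by rw [← hr]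
      push_cast at h4
      have h5 : (m ^ 2 * P) * (m' ^ 2 * P') = r * r := by
        rw [← e, ← e', ← h4]
        ring
      field_simp
      linear_combination h5
    have hP : (w : ℚ) - (s + 0 * t) * (x - a * w) ≠ 0 := by
      intro h4
      rw [h4, mul_zero] at h0
      rcases mul_eq_zero.1 h0 with h5 | h5
      · rcases o0 with _ | b
        · rw [cc_some_none] at h5
          norm_num at h5
        · rw [cc_some_some] at h5
          have h6 : (a : ℤ) - b = 0 := by exact_mod_cast h5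
          apply g0
          exact congrArg some (Subtype.ext (sub_eq_zero.1 h6).symm)
      · exact hs o0 (by exact_mod_cast h5)
    have h5 := ap4_rat (P := (w : ℚ) - (s + 0 * t) * (x - a * w))
      (Q := w - (s + 1 * t) * (x - a * w)) (R := w - (s + 2 * t) * (x - a * w))
      (S := w - (s + 3 * t) * (x - a * w)) (by ring) (by ring) hP
      (sq o0 o1 m0 m1 _ _ g0 g1 n0 n1 h0 h1) (sq o0 o2 m0 m2 _ _ g0 g2 n0 n2 h0 h2)
      (sq o0 o3 m0 m3 _ _ g0 g3 n0 n3 h0 h3)
    have h6 : t * (x - a * w) = 0 := by linear_combination h5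
    rcases mul_eq_zero.1 h6 with h7 | h7
    · exact ht h7
    · exact hx a (by exact_mod_cast h7)

/-- the criterion -/
theorem crit (hodd : Odd A.card) (h5 : 5 ≤ A.card) (hG : GenSet A) (hF : FermatSet A) :
    ∃ C : ℝ, ∀ X : ℕ, 3 ≤ X →
      ({d : ℤ | d.natAbs ≤ X ∧ Squarefree d ∧
        {p : ℚ × ℚ | (d : ℚ) * p.2 ^ 2 = ∏ a ∈ A, (p.1 - a)}.ncard ≠ A.card}.ncard : ℝ) ≤
        C * X * (Real.log X) ^ (-(1 / 5 : ℝ)) := by
  classical
  have hcard : Fintype.card (Option A) = A.card + 1 := by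
    rw [Fintype.card_option, Fintype.card_coe]
  obtain ⟨C, hC⟩ := fins_all (Option A) (al A) (be A) (by omega) (generic_of hG).1
    (generic_of hG).2
  refine ⟨C, fun X hX => le_trans ?_ (hC X hX)⟩
  refine Nat.cast_le.2 (Set.ncard_le_ncard ?_ (fin_le X _))
  rintro d ⟨h1, h2, h3⟩
  refine ⟨h1, h2, ?_⟩
  have hd0 : (d : ℚ) ≠ 0 := by exact_mod_cast h2.ne_zero
  have h4 : ∃ x y : ℚ, y ≠ 0 ∧ (d : ℚ) * y ^ 2 = ∏ a ∈ A, (x - a) := by
    by_contra hne
    push Not at hne
    apply h3
    have h6 : {p : ℚ × ℚ | (d : ℚ) * p.2 ^ 2 = ∏ a ∈ A, (p.1 - a)} =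
        (fun a : ℤ => ((a : ℚ), (0 : ℚ))) '' (A : Set ℤ) := by
      ext ⟨x, y⟩
      rw [Set.mem_ofPred_eq, Set.mem_image]
      constructor
      · intro h5
        have hy : y = 0 := by
          by_contra hy
          exact hne x y hy h5
        have h7 : ∏ a ∈ A, (x - a) = 0 := by
          rw [← h5]
          change (d : ℚ) * y ^ 2 = 0
          rw [hy]
          ring
        obtain ⟨a, ha, h8⟩ := prod_eq_zero_iff.1 h7
        exact ⟨a, ha, by rw [hy, ← sub_eq_zero.1 h8]⟩
      · rintro ⟨a, ha, h8⟩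
        obtain ⟨rfl, rfl⟩ := Prod.mk.inj h8
        change (d : ℚ) * 0 ^ 2 = ∏ b ∈ A, ((a : ℚ) - b)
        have h9 : ∏ b ∈ A, ((a : ℚ) - b) = 0 := prod_eq_zero (Finset.mem_coe.1 ha) (by simp)
        rw [h9]
        ring
    rw [h6, Set.ncard_image_of_injective, Set.ncard_coe_finset]
    intro a b hab
    have := (Prod.mk.inj hab).1
    exact_mod_cast this
  obtain ⟨x, y, hy, h5⟩ := h4
  have h6 : (d : ℚ) * y ^ 2 = ∏ k, ((al A k : ℚ) * x + be A k * 1) := by
    rw [h5, Fintype.prod_option, ← Finset.prod_coe_sort]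
    simp [al, be, sub_eq_add_neg]
  obtain ⟨n, hn⟩ := hodd
  obtain ⟨x', w', y', c, -, -, -, hco, hy', heq⟩ :=
    integral (al A) (be A) (n := n + 1) (by omega) h2 hy h6
  refine ⟨x', w', y', hco, hy', heq, no_const hF fun k hk => ?_⟩
  have h7 : d * y' ^ 2 = 0 := by
    rw [heq]
    exact prod_eq_zero (mem_univ k) hk
  exact mul_ne_zero h2.ne_zero (pow_ne_zero 2 hy') h7

end

end Pool.Agent.TH213.SP
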