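import Mathlib
import Pool.Agent.TH213.SP.Crit

/-!
# Twists of split hyperelliptic curves: two families satisfying the criterion
-/

set_option autoImplicit false

namespace Pool.Agent.TH213.SP

open Finset

lemma nonsq_mul {n s : ℤ} (hn : ¬ IsSquare n) (hs : s ≠ 0) : ¬ IsSquare (n * s ^ 2) := by
  rintro ⟨r, hr⟩
  apply hn
  rw [← Rat.isSquare_intCast_iff]
  refine ⟨r / s, ?_⟩
  have hs' : (s : ℚ) ≠ 0 := by exact_mod_cast hs
  have h : ((n * s ^ 2 : ℤ) : ℚ) = ((r * r : ℤ) : ℚ) := by rw [hr]
  push_cast at h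
  field_simp
  linear_combination h

lemma nonsq_neg {n : ℤ} (hn : n < 0) : ¬ IsSquare n := fun h => absurd h.nonneg (not_le.2 hn)

lemma nonsq_two : ¬ IsSquare (2 : ℤ) := by decide +kernel

lemma nonsq_three : ¬ IsSquare (3 : ℤ) := by decide +kernel

/-! ### `0, ±1, ±3, …, ±3 ^ (g - 1)` -/

/-- `0, ±1, ±3, …, ±3 ^ (g - 1)` -/
def T (g : ℕ) : Finset ℤ :=
  insert 0 ((range g).image (fun j => (3 : ℤ) ^ j) ∪ (range g).image (fun j => -(3 : ℤ) ^ j))

lemma mem_T {g : ℕ} {a : ℤ} :
    a ∈ T g ↔ a = 0 ∨ (∃ j < g, (3 : ℤ) ^ j = a) ∨ ∃ j < g, -(3 : ℤ) ^ j = a := by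
  simp [T]

lemma mem_T' {g : ℕ} {a : ℤ} : a ∈ T g ↔ a = 0 ∨ ∃ j < g, a = 3 ^ j ∨ a = -3 ^ j := by
  rw [mem_T]
  constructor
  · rintro (h | ⟨j, hj, h⟩ | ⟨j, hj, h⟩)
    · exact Or.inl h
    · exact Or.inr ⟨j, hj, Or.inl h.symm⟩
    · exact Or.inr ⟨j, hj, Or.inr h.symm⟩
  · rintro (h | ⟨j, hj, h | h⟩)
    · exact Or.inl h
    · exact Or.inr (Or.inl ⟨j, hj, h.symm⟩)
    · exact Or.inr (Or.inr ⟨j, hj, h.symm⟩)

lemma zero_mem_T (g : ℕ) : (0 : ℤ) ∈ T g := mem_T'.2 (Or.inl rfl)

lemma pow_mem_T {g j : ℕ} (hj : j < g) : (3 : ℤ) ^ j ∈ T g := mem_T'.2 (Or.inr ⟨j, hj, Or.inl rfl⟩)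

lemma neg_mem_T {g : ℕ} {a : ℤ} (h : a ∈ T g) : -a ∈ T g := by
  rw [mem_T'] at h ⊢
  rcases h with h | ⟨j, hj, h | h⟩
  · exact Or.inl (by rw [h]; rfl)
  · exact Or.inr ⟨j, hj, Or.inr (by rw [h])⟩
  · exact Or.inr ⟨j, hj, Or.inl (by rw [h]; ring)⟩

lemma inj3 : Function.Injective (fun j : ℕ => (3 : ℤ) ^ j) := by
  intro i j h
  have h' : (3 : ℤ) ^ i = 3 ^ j := h
  have h1 : (3 : ℕ) ^ i = 3 ^ j := by exact_mod_cast h'
  exact Nat.pow_right_injective (le_refl 2 |>.trans (by norm_num)) h1

lemma disj3 (g : ℕ) : Disjoint ((range g).image (fun j => (3 : ℤ) ^ j))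
    ((range g).image (fun j => -(3 : ℤ) ^ j)) := by
  rw [Finset.disjoint_left]
  intro a h1 h2
  obtain ⟨i, -, hi⟩ := mem_image.1 h1
  obtain ⟨j, -, hj⟩ := mem_image.1 h2
  have h3 : (0 : ℤ) < 3 ^ i := by positivity
  have h4 : (0 : ℤ) < 3 ^ j := by positivity
  have h5 : (3 : ℤ) ^ i = -3 ^ j := hi.trans hj.symm
  omega

lemma zero3 (g : ℕ) : (0 : ℤ) ∉ (range g).image (fun j => (3 : ℤ) ^ j) ∪
    (range g).image (fun j => -(3 : ℤ) ^ j) := by
  intro h
  rcases mem_union.1 h with h | h <;> obtain ⟨i, -, hi⟩ := mem_image.1 h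
  · have h3 : (0 : ℤ) < 3 ^ i := by positivity
    have h5 : (3 : ℤ) ^ i = 0 := hi
    omega
  · have h3 : (0 : ℤ) < 3 ^ i := by positivity
    have h5 : -(3 : ℤ) ^ i = 0 := hi
    omega

lemma neg_inj3 : Function.Injective (fun j : ℕ => -(3 : ℤ) ^ j) := by
  intro i j h
  have h' : -(3 : ℤ) ^ i = -3 ^ j := h
  exact inj3 (neg_inj.1 h')

lemma card_T (g : ℕ) : (T g).card = 2 * g + 1 := by
  rw [T, card_insert_of_notMem (zero3 g), card_union_of_disjoint (disj3 g),
    card_image_of_injective _ inj3, card_image_of_injective _ neg_inj3, card_range]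
  ring

lemma prod_T (g : ℕ) (x : ℚ) : ∏ a ∈ T g, (x - a) = x * ∏ j ∈ range g, (x ^ 2 - 9 ^ j) := by
  rw [T, prod_insert (zero3 g), prod_union (disj3 g), prod_image (fun _ _ _ _ h => inj3 h),
    prod_image (fun _ _ _ _ h => neg_inj3 h), ← prod_mul_distrib]
  push_cast
  rw [sub_zero]
  congr 1
  refine prod_congr rfl fun j _ => ?_
  have : (9 : ℚ) ^ j = (3 ^ j) ^ 2 := by
    rw [← pow_mul, mul_comm j 2, pow_mul]
    norm_num
  rw [this]
  ring

lemma gen_T {g : ℕ} (hg : 1 ≤ g) : GenSet (T g) := by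
  have h1m : (1 : ℤ) ∈ T g := by simpa using pow_mem_T (g := g) (j := 0) (by omega)
  constructor
  · intro a ha
    by_cases h0 : a = 0
    · subst h0
      exact ⟨1, h1m, -1, neg_mem_T h1m, by norm_num, by norm_num, nonsq_neg (by norm_num)⟩
    · refine ⟨0, zero_mem_T g, -a, neg_mem_T ha, Ne.symm h0, by omega, ?_⟩
      have h : (a - 0) * (a - -a) = 2 * a ^ 2 := by ring
      rw [h]
      exact nonsq_mul nonsq_two h0
  · -- the case `a`, `b` of the same sign
    have key : ∀ i j : ℕ, i < j → j < g → ∃ l ∈ T g, l ≠ 3 ^ i ∧ l ≠ 3 ^ j ∧ 0 ≤ l ∧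
        ¬ IsSquare (((3 : ℤ) ^ i - l) * (3 ^ j - l)) := by
      intro i j hij hj
      have p1 : (0 : ℤ) < 3 ^ i := by positivity
      have p2 : (0 : ℤ) < 3 ^ j := by positivity
      rcases Nat.lt_or_ge (i + 1) j with h | h
      · refine ⟨3 ^ (i + 1), pow_mem_T (by omega), ?_, ?_, by positivity, ?_⟩
        · rw [pow_succ]; omega
        · intro h2
          have := inj3 h2
          omega
        · apply nonsq_neg
          have h3 : (3 : ℤ) ^ i < 3 ^ (i + 1) := by rw [pow_succ]; omega
          have h4 : (3 : ℤ) ^ (i + 1) < 3 ^ j := pow_lt_pow_right₀ (by norm_num) h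
          exact mul_neg_of_neg_of_pos (by omega) (by omega)
      · obtain rfl : j = i + 1 := by omega
        refine ⟨0, zero_mem_T g, by omega, by omega, le_refl _, ?_⟩
        have h2 : ((3 : ℤ) ^ i - 0) * (3 ^ (i + 1) - 0) = 3 * (3 ^ i) ^ 2 := by ring
        rw [h2]
        exact nonsq_mul nonsq_three (by positivity)
    have key2 : ∀ i j : ℕ, i < g → j < g → i ≠ j → ∃ l ∈ T g, l ≠ 3 ^ i ∧ l ≠ 3 ^ j ∧ 0 ≤ l ∧
        ¬ IsSquare (((3 : ℤ) ^ i - l) * (3 ^ j - l)) := by
      intro i j hi hj hij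
      rcases Nat.lt_or_gt_of_ne hij with h | h
      · exact key i j h hj
      · obtain ⟨l, h1, h2, h3, h4, h5⟩ := key j i h hi
        exact ⟨l, h1, h3, h2, h4, by rwa [mul_comm]⟩
    intro a ha b hb hab
    by_cases ha0 : a = 0
    · subst ha0
      refine ⟨-b, neg_mem_T hb, by omega, by omega, ?_⟩
      have h : (0 - -b) * (b - -b) = 2 * b ^ 2 := by ring
      rw [h]
      exact nonsq_mul nonsq_two (Ne.symm hab)
    by_cases hb0 : b = 0
    · subst hb0
      refine ⟨-a, neg_mem_T ha, by omega, by omega, ?_⟩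
      have h : (a - -a) * (0 - -a) = 2 * a ^ 2 := by ring
      rw [h]
      exact nonsq_mul nonsq_two hab
    rw [mem_T'] at ha hb
    rcases ha with ha | ⟨i, hi, ha⟩
    · exact absurd ha ha0
    rcases hb with hb | ⟨j, hj, hb⟩
    · exact absurd hb hb0
    have p1 : (0 : ℤ) < 3 ^ i := by positivity
    have p2 : (0 : ℤ) < 3 ^ j := by positivity
    rcases ha with rfl | rfl <;> rcases hb with rfl | rfl
    · obtain ⟨l, h1, h2, h3, -, h5⟩ := key2 i j hi hj (by rintro rfl; exact hab rfl)
      exact ⟨l, h1, h2, h3, h5⟩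
    · refine ⟨0, zero_mem_T g, by omega, by omega, nonsq_neg ?_⟩
      rw [sub_zero, sub_zero, mul_neg]
      have := mul_pos p1 p2
      omega
    · refine ⟨0, zero_mem_T g, by omega, by omega, nonsq_neg ?_⟩
      rw [sub_zero, sub_zero, neg_mul]
      have := mul_pos p1 p2
      omega
    · obtain ⟨l, h1, h2, h3, h4, h5⟩ := key2 i j hi hj (by rintro rfl; exact hab rfl)
      refine ⟨-l, neg_mem_T h1, by omega, by omega, ?_⟩
      have h : (-(3 : ℤ) ^ i - -l) * (-3 ^ j - -l) = (3 ^ i - l) * (3 ^ j - l) := by ring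
      rw [h]
      exact h5

lemma fermat_T {g : ℕ} (hg : 2 ≤ g) : FermatSet (T g) := by
  have h1m : (1 : ℤ) ∈ T g := by simpa using pow_mem_T (g := g) (j := 0) (by omega)
  have h3m : (3 : ℤ) ∈ T g := by simpa using pow_mem_T (g := g) (j := 1) (by omega)
  constructor
  · refine ⟨-3, 2, by norm_num, ?_⟩
    intro j hj
    rw [mem_range] at hj
    interval_cases j
    · exact ⟨-3, neg_mem_T h3m, by norm_num⟩
    · exact ⟨-1, neg_mem_T h1m, by norm_num⟩
    · exact ⟨1, h1m, by norm_num⟩
    · exact ⟨3, h3m, by norm_num⟩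
  · intro a ha
    by_cases h0 : a = 0
    · subst h0
      refine ⟨-1, 2 / 3, by norm_num, ?_⟩
      intro j hj
      rw [mem_range] at hj
      interval_cases j
      · exact Or.inr ⟨-1, neg_mem_T h1m, by norm_num, by norm_num⟩
      · exact Or.inr ⟨-3, neg_mem_T h3m, by norm_num, by norm_num⟩
      · exact Or.inr ⟨3, h3m, by norm_num, by norm_num⟩
      · exact Or.inr ⟨1, h1m, by norm_num, by norm_num⟩
    · have ha0 : (a : ℚ) ≠ 0 := by exact_mod_cast h0
      have h3 : 3 * a ∈ T g ∨ ∃ c ∈ T g, a = 3 * c := by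
        rcases mem_T'.1 ha with h | ⟨j, hj, h⟩
        · exact absurd h h0
        · rcases Nat.eq_zero_or_pos j with hj0 | hj0
          · left
            subst hj0
            rcases h with h | h
            · rw [h]; simpa using h3m
            · rw [h]
              have := neg_mem_T h3m
              simpa using this
          · right
            obtain ⟨k, rfl⟩ : ∃ k, j = k + 1 := ⟨j - 1, by omega⟩
            rcases h with h | h
            · exact ⟨3 ^ k, pow_mem_T (by omega), by rw [h]; ring⟩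
            · exact ⟨-3 ^ k, neg_mem_T (pow_mem_T (by omega)), by rw [h]; ring⟩
      rcases h3 with h3 | ⟨c, hc, h3⟩
      · refine ⟨-1 / a, 1 / (2 * a), by positivity, ?_⟩
        intro j hj
        rw [mem_range] at hj
        interval_cases j
        · exact Or.inr ⟨0, zero_mem_T g, Ne.symm h0, by push_cast; field_simp; ring⟩
        · refine Or.inr ⟨-a, neg_mem_T ha, by omega, ?_⟩
          have : (((-a : ℤ) : ℚ) - a) = -2 * a := by push_cast; ring
          rw [this]
          push_cast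
          field_simp
          ring
        · left
          push_cast
          field_simp
          ring
        · refine Or.inr ⟨3 * a, h3, by omega, ?_⟩
          have : (((3 * a : ℤ) : ℚ) - a) = 2 * a := by push_cast; ring
          rw [this]
          push_cast
          field_simp
          ring
      · refine ⟨-3 / (2 * a), 1 / (2 * a), by positivity, ?_⟩
        intro j hj
        rw [mem_range] at hj
        interval_cases j
        · refine Or.inr ⟨c, hc, by omega, ?_⟩
          have h4 : (a : ℚ) = 3 * c := by exact_mod_cast h3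
          have : ((c : ℚ) - a) = -2 / 3 * a := by rw [h4]; ring
          rw [this]
          push_cast
          field_simp
          ring
        · refine Or.inr ⟨0, zero_mem_T g, Ne.symm h0, ?_⟩
          push_cast
          rw [zero_sub]
          field_simp
          ring
        · refine Or.inr ⟨-a, neg_mem_T ha, by omega, ?_⟩
          have : (((-a : ℤ) : ℚ) - a) = -2 * a := by push_cast; ring
          rw [this]
          push_cast
          field_simp
          ring
        · left
          push_cast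
          field_simp
          ring

/-! ### consecutive integers -/

/-- `0, 1, …, N` -/
def U (N : ℕ) : Finset ℤ := (range (N + 1)).image (fun j : ℕ => (j : ℤ))

lemma mem_U {N : ℕ} {a : ℤ} : a ∈ U N ↔ 0 ≤ a ∧ a ≤ N := by
  rw [U, mem_image]
  constructor
  · rintro ⟨j, hj, rfl⟩
    rw [mem_range] at hj
    exact ⟨by positivity, by omega⟩
  · rintro ⟨h1, h2⟩
    exact ⟨a.toNat, by rw [mem_range]; omega, by omega⟩

lemma card_U (N : ℕ) : (U N).card = N + 1 := by
  rw [U, card_image_of_injective _ Nat.cast_injective, card_range]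

lemma prod_U (N : ℕ) (x : ℚ) : ∏ a ∈ U N, (x - a) = ∏ j ∈ range (N + 1), (x - j) := by
  rw [U, prod_image (fun _ _ _ _ h => Nat.cast_injective h)]
  push_cast
  rfl

lemma gen_U {N : ℕ} (hN : 4 ≤ N) : GenSet (U N) := by
  constructor
  · intro a ha
    rw [mem_U] at ha
    rcases le_or_gt (a + 2) N with h | h
    · refine ⟨a + 1, mem_U.2 (by omega), a + 2, mem_U.2 (by omega), by omega, by omega, ?_⟩
      have : (a - (a + 1)) * (a - (a + 2)) = 2 := by ring
      rw [this]
      exact nonsq_two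
    · refine ⟨a - 1, mem_U.2 (by omega), a - 2, mem_U.2 (by omega), by omega, by omega, ?_⟩
      have : (a - (a - 1)) * (a - (a - 2)) = 2 := by ring
      rw [this]
      exact nonsq_two
  · have key : ∀ a ∈ U N, ∀ b ∈ U N, a < b →
        ∃ l ∈ U N, l ≠ a ∧ l ≠ b ∧ ¬ IsSquare ((a - l) * (b - l)) := by
      intro a ha b hb hab
      rw [mem_U] at ha hb
      rcases lt_or_ge (a + 1) b with h | h
      · refine ⟨a + 1, mem_U.2 (by omega), by omega, by omega, nonsq_neg ?_⟩
        exact mul_neg_of_neg_of_pos (by omega) (by omega)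
      · obtain rfl : b = a + 1 := by omega
        rcases le_or_gt (a + 2) N with h | h
        · refine ⟨a + 2, mem_U.2 (by omega), by omega, by omega, ?_⟩
          have : (a - (a + 2)) * (a + 1 - (a + 2)) = 2 := by ring
          rw [this]
          exact nonsq_two
        · refine ⟨a - 1, mem_U.2 (by omega), by omega, by omega, ?_⟩
          have : (a - (a - 1)) * (a + 1 - (a - 1)) = 2 := by ring
          rw [this]
          exact nonsq_two
    intro a ha b hb hab
    rcases lt_or_gt_of_ne hab with h | h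
    · exact key a ha b hb h
    · obtain ⟨l, h1, h2, h3, h4⟩ := key b hb a ha h
      exact ⟨l, h1, h3, h2, by rwa [mul_comm]⟩

lemma fermat_U {N : ℕ} (hN : 7 ≤ N) : FermatSet (U N) := by
  constructor
  · refine ⟨0, 1, by norm_num, ?_⟩
    intro j hj
    rw [mem_range] at hj
    exact ⟨j, mem_U.2 (by omega), by push_cast; ring⟩
  · intro a ha
    rw [mem_U] at ha
    rcases le_or_gt (a + 6) N with h | h
    · refine ⟨0, 1 / 6, by norm_num, ?_⟩
      intro j hj
      rw [mem_range] at hj
      interval_cases j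
      · left; norm_num
      · exact Or.inr ⟨a + 6, mem_U.2 (by omega), by omega, by push_cast; ring⟩
      · exact Or.inr ⟨a + 3, mem_U.2 (by omega), by omega, by push_cast; ring⟩
      · exact Or.inr ⟨a + 2, mem_U.2 (by omega), by omega, by push_cast; ring⟩
    · rcases le_or_gt 6 a with h6 | h6
      · refine ⟨0, -1 / 6, by norm_num, ?_⟩
        intro j hj
        rw [mem_range] at hj
        interval_cases j
        · left; norm_num
        · exact Or.inr ⟨a - 6, mem_U.2 (by omega), by omega, by push_cast; ring⟩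
        · exact Or.inr ⟨a - 3, mem_U.2 (by omega), by omega, by push_cast; ring⟩
        · exact Or.inr ⟨a - 2, mem_U.2 (by omega), by omega, by push_cast; ring⟩
      · refine ⟨-1, 1 / 2, by norm_num, ?_⟩
        intro j hj
        rw [mem_range] at hj
        interval_cases j
        · exact Or.inr ⟨a - 1, mem_U.2 (by omega), by omega, by push_cast; ring⟩
        · exact Or.inr ⟨a - 2, mem_U.2 (by omega), by omega, by push_cast; ring⟩
        · left; norm_num
        · exact Or.inr ⟨a + 2, mem_U.2 (by omega), by omega, by push_cast; ring⟩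

end Pool.Agent.TH213.SP
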