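import Mathlib
import Pool.Agent.W262.TW.Stm2

/-!
# 2-coverings of split hyperelliptic curves: local analysis
-/

set_option autoImplicit false

namespace Pool.Agent.TH213.SP

open Finset Pool.Agent.W262.TW

/-- the 2-covering `α k x + β k w = δ k * y k ^ 2` (`k ∈ K`) has a point over `F` -/
def Cov {K : Type} (α β δ : K → ℤ) (F : Type) [Field F] : Prop :=
  ∃ x w : F, (x ≠ 0 ∨ w ≠ 0) ∧ ∀ k, ∃ y : F, (α k : F) * x + β k * w = δ k * y ^ 2

variable {K : Type}

lemma parity {p : ℕ} [Fact p.Prime] {a b : ℤ} {y y' : ℚ_[p]} (ha : a ≠ 0) (hb : b ≠ 0)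
    (h : ‖(a : ℚ_[p]) * y ^ 2‖ = ‖(b : ℚ_[p]) * y' ^ 2‖) (h0 : ‖(a : ℚ_[p]) * y ^ 2‖ ≠ 0) :
    (Odd (padicValInt p a) ↔ Odd (padicValInt p b)) := by
  have ha' : (a : ℚ_[p]) ≠ 0 := by exact_mod_cast ha
  have hb' : (b : ℚ_[p]) ≠ 0 := by exact_mod_cast hb
  have hay : (a : ℚ_[p]) * y ^ 2 ≠ 0 := fun h1 => h0 (by rw [h1, norm_zero])
  have hby : (b : ℚ_[p]) * y' ^ 2 ≠ 0 := by
    intro h1
    rw [h1, norm_zero] at h
    exact h0 h
  have hy : y ≠ 0 := by rintro rfl; simp at hay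
  have hy' : y' ≠ 0 := by rintro rfl; simp at hby
  have hp1 : (1 : ℝ) < p := by exact_mod_cast (Fact.out : p.Prime).one_lt
  rw [Padic.norm_eq_zpow_neg_valuation hay, Padic.norm_eq_zpow_neg_valuation hby] at h
  have h1 := zpow_right_injective₀ (by linarith) (by linarith) h
  rw [Padic.valuation_mul ha' (pow_ne_zero 2 hy), Padic.valuation_mul hb' (pow_ne_zero 2 hy'),
    Padic.valuation_pow, Padic.valuation_pow, Padic.valuation_intCast,
    Padic.valuation_intCast] at h1
  push_cast at h1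
  rw [← Int.odd_coe_nat, ← Int.odd_coe_nat, Int.odd_iff, Int.odd_iff]
  omega

/-- local analysis at a prime not dividing the determinants -/
lemma loc {α β δ : K → ℤ} {p : ℕ} [Fact p.Prime] [Nonempty K] (hδ : ∀ k, δ k ≠ 0)
    (hc : ∀ i k, i ≠ k → ¬ (p : ℤ) ∣ cc α β i k) (h : Cov α β δ ℚ_[p]) :
    ∃ i0 : K, (∀ k l, k ≠ i0 → l ≠ i0 →
        (Odd (padicValInt p (δ k)) ↔ Odd (padicValInt p (δ l)))) ∧
      ((∀ k l, (Odd (padicValInt p (δ k)) ↔ Odd (padicValInt p (δ l)))) ∨
        ∀ k l, k ≠ i0 → l ≠ i0 → ∃ ρ : ℚ_[p], ρ ≠ 0 ∧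
          ‖((δ k : ℚ_[p]) * δ l * (cc α β i0 k * cc α β i0 l)) / ρ ^ 2 - 1‖ < 1) := by
  obtain ⟨x, w, hxw, hy⟩ := h
  choose y hy using hy
  set M : ℝ := max ‖x‖ ‖w‖ with hM
  have hM0 : 0 < M := by
    rcases hxw with h | h
    · exact lt_max_of_lt_left (norm_pos_iff.2 h)
    · exact lt_max_of_lt_right (norm_pos_iff.2 h)
  set L : K → ℚ_[p] := fun k => (α k : ℚ_[p]) * x + β k * w with hL
  have hcn : ∀ i k, i ≠ k → ‖(cc α β i k : ℚ_[p])‖ = 1 := by
    intro i k hik
    have h1 := hc i k hik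
    rw [← Padic.norm_intCast_lt_one_iff] at h1
    exact le_antisymm (Padic.norm_int_le_one _) (not_lt.1 h1)
  have hLe : ∀ k, ‖L k‖ ≤ M := by
    intro k
    refine (Padic.nonarchimedean _ _).trans (max_le ?_ ?_)
    · rw [norm_mul]
      calc ‖(α k : ℚ_[p])‖ * ‖x‖ ≤ 1 * ‖x‖ :=
            mul_le_mul_of_nonneg_right (Padic.norm_int_le_one _) (norm_nonneg _)
        _ ≤ M := by rw [one_mul]; exact le_max_left _ _
    · rw [norm_mul]
      calc ‖(β k : ℚ_[p])‖ * ‖w‖ ≤ 1 * ‖w‖ :=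
            mul_le_mul_of_nonneg_right (Padic.norm_int_le_one _) (norm_nonneg _)
        _ ≤ M := by rw [one_mul]; exact le_max_right _ _
  have hMle : ∀ i k, i ≠ k → M ≤ max ‖L i‖ ‖L k‖ := by
    intro i k hik
    have h1 := hcn i k hik
    apply max_le
    · have e : (cc α β i k : ℚ_[p]) * x = β k * L i - β i * L k := by
        simp only [cc, hL]; push_cast; ring
      have e2 : ‖x‖ = ‖(β k : ℚ_[p]) * L i - β i * L k‖ := by
        rw [← e, norm_mul, h1, one_mul]
      rw [e2, sub_eq_add_neg]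
      refine (Padic.nonarchimedean _ _).trans (max_le_max ?_ ?_)
      · rw [norm_mul]
        calc ‖(β k : ℚ_[p])‖ * ‖L i‖ ≤ 1 * ‖L i‖ :=
              mul_le_mul_of_nonneg_right (Padic.norm_int_le_one _) (norm_nonneg _)
          _ = _ := one_mul _
      · rw [norm_neg, norm_mul]
        calc ‖(β i : ℚ_[p])‖ * ‖L k‖ ≤ 1 * ‖L k‖ :=
              mul_le_mul_of_nonneg_right (Padic.norm_int_le_one _) (norm_nonneg _)
          _ = _ := one_mul _
    · have e : (cc α β i k : ℚ_[p]) * w = α i * L k - α k * L i := by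
        simp only [cc, hL]; push_cast; ring
      have e2 : ‖w‖ = ‖(α i : ℚ_[p]) * L k - α k * L i‖ := by
        rw [← e, norm_mul, h1, one_mul]
      rw [e2, sub_eq_add_neg, max_comm]
      refine (Padic.nonarchimedean _ _).trans (max_le_max ?_ ?_)
      · rw [norm_mul]
        calc ‖(α i : ℚ_[p])‖ * ‖L k‖ ≤ 1 * ‖L k‖ :=
              mul_le_mul_of_nonneg_right (Padic.norm_int_le_one _) (norm_nonneg _)
          _ = _ := one_mul _
      · rw [norm_neg, norm_mul]
        calc ‖(α k : ℚ_[p])‖ * ‖L i‖ ≤ 1 * ‖L i‖ :=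
              mul_le_mul_of_nonneg_right (Padic.norm_int_le_one _) (norm_nonneg _)
          _ = _ := one_mul _
  have hpar : ∀ k l, ‖L k‖ = M → ‖L l‖ = M →
      (Odd (padicValInt p (δ k)) ↔ Odd (padicValInt p (δ l))) := by
    intro k l h1 h2
    have e1 : ‖(δ k : ℚ_[p]) * y k ^ 2‖ = M := by rw [← hy k]; exact h1
    have e2 : ‖(δ l : ℚ_[p]) * y l ^ 2‖ = M := by rw [← hy l]; exact h2
    exact parity (hδ k) (hδ l) (e1.trans e2.symm) (by rw [e1]; exact hM0.ne')
  by_cases hall : ∀ k, ‖L k‖ = M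
  · obtain ⟨i0⟩ := ‹Nonempty K›
    exact ⟨i0, fun k l _ _ => hpar k l (hall k) (hall l),
      Or.inl fun k l => hpar k l (hall k) (hall l)⟩
  · push Not at hall
    obtain ⟨i0, hi0⟩ := hall
    have hlt : ‖L i0‖ < M := lt_of_le_of_ne (hLe i0) hi0
    have hoth : ∀ k, k ≠ i0 → ‖L k‖ = M := by
      intro k hk
      have h1 := hMle i0 k (Ne.symm hk)
      rcases le_max_iff.1 h1 with h2 | h2
      · exact absurd h2 (not_le.2 hlt)
      · exact le_antisymm (hLe k) h2
    refine ⟨i0, fun k l hk hl => hpar k l (hoth k hk) (hoth l hl), Or.inr ?_⟩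
    -- the common factor
    have key : ∃ lam : ℚ_[p], lam ≠ 0 ∧ ∀ k, k ≠ i0 → ∃ η : ℚ_[p], ‖η‖ < 1 ∧
        L k = lam * cc α β i0 k * (1 + η) := by
      have hc0 : ∀ k, k ≠ i0 → (cc α β i0 k : ℚ_[p]) ≠ 0 := by
        intro k hk h1
        have := hcn i0 k (Ne.symm hk)
        rw [h1, norm_zero] at this
        norm_num at this
      by_cases hwM : ‖w‖ = M
      · have hw0 : w ≠ 0 := by
          intro h1
          rw [h1, norm_zero] at hwM
          exact hM0.ne hwM
        have h2 : ∀ k, k ≠ i0 → (α i0 : ℚ_[p]) * L k = cc α β i0 k * w + α k * L i0 := by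
          intro k _
          simp only [cc, hL]; push_cast; ring
        have hη : ∀ k, k ≠ i0 → ‖(α k : ℚ_[p]) * L i0 / (cc α β i0 k * w)‖ < 1 := by
          intro k hk
          rw [norm_div, norm_mul, norm_mul, hcn i0 k (Ne.symm hk), one_mul, hwM, div_lt_one hM0]
          calc ‖(α k : ℚ_[p])‖ * ‖L i0‖ ≤ 1 * ‖L i0‖ :=
                mul_le_mul_of_nonneg_right (Padic.norm_int_le_one _) (norm_nonneg _)
            _ = ‖L i0‖ := one_mul _
            _ < M := hlt
        by_cases hex : ∃ k, k ≠ i0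
        · have hα : (α i0 : ℚ_[p]) ≠ 0 := by
            intro h3
            obtain ⟨k, hk⟩ := hex
            have h4 := h2 k hk
            rw [h3, zero_mul] at h4
            have h5 := hη k hk
            have h6 : (α k : ℚ_[p]) * L i0 / (cc α β i0 k * w) = -1 := by
              have := hc0 k hk
              rw [div_eq_iff (mul_ne_zero this hw0)]
              linear_combination -h4
            rw [h6, norm_neg, norm_one] at h5
            exact lt_irrefl _ h5
          refine ⟨w / α i0, div_ne_zero hw0 hα, fun k hk => ⟨_, hη k hk, ?_⟩⟩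
          have := hc0 k hk
          have h4 := h2 k hk
          field_simp
          linear_combination h4
        · exact ⟨1, one_ne_zero, fun k hk => absurd ⟨k, hk⟩ hex⟩
      · have hxM : ‖x‖ = M := by
          rcases max_choice ‖x‖ ‖w‖ with h1 | h1
          · rw [hM, h1]
          · exact absurd (by rw [hM, h1]) hwM
        have hx0 : x ≠ 0 := by
          intro h1
          rw [h1, norm_zero] at hxM
          exact hM0.ne hxM
        have h2 : ∀ k, k ≠ i0 → -(β i0 : ℚ_[p]) * L k = cc α β i0 k * x - β k * L i0 := by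
          intro k _
          simp only [cc, hL]; push_cast; ring
        have hη : ∀ k, k ≠ i0 → ‖-((β k : ℚ_[p]) * L i0 / (cc α β i0 k * x))‖ < 1 := by
          intro k hk
          rw [norm_neg, norm_div, norm_mul, norm_mul, hcn i0 k (Ne.symm hk), one_mul, hxM,
            div_lt_one hM0]
          calc ‖(β k : ℚ_[p])‖ * ‖L i0‖ ≤ 1 * ‖L i0‖ :=
                mul_le_mul_of_nonneg_right (Padic.norm_int_le_one _) (norm_nonneg _)
            _ = ‖L i0‖ := one_mul _
            _ < M := hlt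
        by_cases hex : ∃ k, k ≠ i0
        · have hβ : (β i0 : ℚ_[p]) ≠ 0 := by
            intro h3
            obtain ⟨k, hk⟩ := hex
            have h4 := h2 k hk
            rw [h3, neg_zero, zero_mul] at h4
            have h5 := hη k hk
            have h6 : (β k : ℚ_[p]) * L i0 / (cc α β i0 k * x) = 1 := by
              have := hc0 k hk
              rw [div_eq_iff (mul_ne_zero this hx0)]
              linear_combination h4
            rw [h6, norm_neg, norm_one] at h5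
            exact lt_irrefl _ h5
          refine ⟨-(x / β i0), neg_ne_zero.2 (div_ne_zero hx0 hβ), fun k hk => ⟨_, hη k hk, ?_⟩⟩
          have := hc0 k hk
          have h4 := h2 k hk
          field_simp
          linear_combination -h4
        · exact ⟨1, one_ne_zero, fun k hk => absurd ⟨k, hk⟩ hex⟩
    obtain ⟨lam, hlam, hkey⟩ := key
    intro k l hk hl
    obtain ⟨η, hη, e1⟩ := hkey k hk
    obtain ⟨η', hη', e2⟩ := hkey l hl
    have hLk : L k ≠ 0 := by
      intro h1
      have := hoth k hk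
      rw [h1, norm_zero] at this
      exact hM0.ne this
    have hLl : L l ≠ 0 := by
      intro h1
      have := hoth l hl
      rw [h1, norm_zero] at this
      exact hM0.ne this
    have f1 : L k = δ k * y k ^ 2 := hy k
    have f2 : L l = δ l * y l ^ 2 := hy l
    have hyk : y k ≠ 0 := by
      intro h1; apply hLk; rw [f1, h1]; ring
    have hyl : y l ≠ 0 := by
      intro h1; apply hLl; rw [f2, h1]; ring
    have hck : (cc α β i0 k : ℚ_[p]) ≠ 0 := by
      intro h1; apply hLk; rw [e1, h1]; ring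
    have hcl : (cc α β i0 l : ℚ_[p]) ≠ 0 := by
      intro h1; apply hLl; rw [e2, h1]; ring
    refine ⟨lam * cc α β i0 k * cc α β i0 l / (y k * y l),
      div_ne_zero (mul_ne_zero (mul_ne_zero hlam hck) hcl) (mul_ne_zero hyk hyl), ?_⟩
    have e3 : (δ k : ℚ_[p]) * δ l * (cc α β i0 k * cc α β i0 l) /
        (lam * cc α β i0 k * cc α β i0 l / (y k * y l)) ^ 2 - 1 = η + η' * (1 + η) := by
      have g1 : (δ k : ℚ_[p]) * y k ^ 2 = lam * cc α β i0 k * (1 + η) := f1.symm.trans e1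
      have g2 : (δ l : ℚ_[p]) * y l ^ 2 = lam * cc α β i0 l * (1 + η') := f2.symm.trans e2
      have g3 : (δ k : ℚ_[p]) = lam * cc α β i0 k * (1 + η) / y k ^ 2 := by
        rw [← g1]; field_simp
      have g4 : (δ l : ℚ_[p]) = lam * cc α β i0 l * (1 + η') / y l ^ 2 := by
        rw [← g2]; field_simp
      rw [g3, g4]
      field_simp
      ring
    rw [e3]
    refine lt_of_le_of_lt (Padic.nonarchimedean _ _) (max_lt hη ?_)
    rw [norm_mul]
    have h3 : ‖1 + η‖ ≤ 1 := by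
      refine (Padic.nonarchimedean _ _).trans (max_le ?_ hη.le)
      rw [norm_one]
    calc ‖η'‖ * ‖1 + η‖ ≤ ‖η'‖ * 1 := mul_le_mul_of_nonneg_left h3 (norm_nonneg _)
      _ = ‖η'‖ := mul_one _
      _ < 1 := hη'

/-- an integer prime to `p` and close to a square is a quadratic residue -/
lemma residue {p : ℕ} [Fact p.Prime] {A : ℤ} (hA : ¬ (p : ℤ) ∣ A) {ρ : ℚ_[p]} (hρ : ρ ≠ 0)
    (h : ‖(A : ℚ_[p]) / ρ ^ 2 - 1‖ < 1) : jacobiSym A p = 1 := by
  have hAn : ‖(A : ℚ_[p])‖ = 1 := by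
    rw [← Padic.norm_intCast_lt_one_iff] at hA
    exact le_antisymm (Padic.norm_int_le_one _) (not_lt.1 hA)
  have hA0 : (A : ℚ_[p]) ≠ 0 := by
    intro h1
    rw [h1, norm_zero] at hAn
    norm_num at hAn
  have h1 : ‖(A : ℚ_[p]) / ρ ^ 2‖ = 1 := by
    have e : (A : ℚ_[p]) / ρ ^ 2 = ((A : ℚ_[p]) / ρ ^ 2 - 1) + 1 := by ring
    rw [e, Padic.add_eq_max_of_ne (by rw [norm_one]; exact h.ne), norm_one]
    exact max_eq_right h.le
  have h2 : ‖ρ‖ = 1 := by
    rw [norm_div, hAn, norm_pow, one_div, inv_eq_one] at h1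
    exact (pow_eq_one_iff_of_nonneg (norm_nonneg _) (by norm_num)).1 h1
  let r : ℤ_[p] := ⟨ρ, h2.le⟩
  have h3 : ‖((A : ℤ_[p]) - r ^ 2)‖ < 1 := by
    have e : (((A : ℤ_[p]) - r ^ 2 : ℤ_[p]) : ℚ_[p]) = ρ ^ 2 * ((A : ℚ_[p]) / ρ ^ 2 - 1) := by
      push_cast
      have : ((r : ℤ_[p]) : ℚ_[p]) = ρ := rfl
      rw [this]
      field_simp
    have e2 : ‖((A : ℤ_[p]) - r ^ 2)‖ = ‖(((A : ℤ_[p]) - r ^ 2 : ℤ_[p]) : ℚ_[p])‖ := rfl
    rw [e2, e, norm_mul, norm_pow, h2, one_pow, one_mul]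
    exact h
  have h4 : PadicInt.toZMod ((A : ℤ_[p]) - r ^ 2) = 0 := by
    rw [← RingHom.mem_ker, PadicInt.ker_toZMod, IsLocalRing.mem_maximalIdeal,
      PadicInt.mem_nonunits]
    exact h3
  rw [map_sub, map_intCast, map_pow, sub_eq_zero] at h4
  rw [← jacobiSym.legendreSym.to_jacobiSym]
  have hA1 : ((A : ℤ) : ZMod p) ≠ 0 := by
    intro h5
    exact hA ((ZMod.intCast_zmod_eq_zero_iff_dvd A p).1 h5)
  rw [legendreSym.eq_one_iff p hA1]
  exact ⟨PadicInt.toZMod r, by rw [h4, sq]⟩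

end Pool.Agent.TH213.SP
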