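import Mathlib
import Pool.Agent.W262.TW.Full
import Pool.Agent.TH213.SP.Loc

/-!
# 2-coverings of split hyperelliptic curves: reduction to tuples
-/

set_option autoImplicit false

namespace Pool.Agent.TH213.SP

open Finset Pool.Agent.W262.TW

lemma val_mul {p : ℕ} [Fact p.Prime] {a b : ℤ} (ha : a ≠ 0) (hb : b ≠ 0) :
    padicValInt p (a * b) = padicValInt p a + padicValInt p b :=
  padicValInt.mul ha hb

lemma odd_val {p : ℕ} [hp : Fact p.Prime] {n a t : ℤ} (ha : Squarefree a) (ht : t ≠ 0)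
    (h : n = a * t ^ 2) : Odd (padicValInt p n) ↔ (p : ℤ) ∣ a := by
  have ha0 : a ≠ 0 := ha.ne_zero
  have h1 : padicValInt p n = padicValInt p a + (padicValInt p t + padicValInt p t) := by
    rw [h, val_mul ha0 (pow_ne_zero 2 ht), sq, val_mul ht ht]
  have h2 : padicValInt p a ≤ 1 := by
    by_contra h3
    have h4 : (p : ℤ) ^ 2 ∣ a := (padicValInt_dvd_iff 2 a).2 (Or.inr (by omega))
    have h5 : IsUnit (p : ℤ) := ha _ (by rwa [← sq])
    exact (Nat.prime_iff_prime_int.1 hp.out).not_isUnit h5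
  have h3 : (p : ℤ) ∣ a ↔ 1 ≤ padicValInt p a := by
    have := padicValInt_dvd_iff (p := p) 1 a
    rw [pow_one] at this
    rw [this]
    constructor
    · rintro (h | h)
      · exact absurd h ha0
      · exact h
    · exact Or.inr
  rw [h3, h1, Nat.odd_iff]
  omega

variable {K : Type} [Fintype K] [DecidableEq K]

/-- multiplying `δ` with a number we arrive at pairwise coprime rough parts -/
lemma normalize {α β δ : K → ℤ} {z : ℕ} (hK : 3 ≤ Fintype.card K) (hδ : ∀ k, δ k ≠ 0)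
    (hc : ∀ i k, i ≠ k → ∀ p : ℕ, z < p → ¬ (p : ℤ) ∣ cc α β i k)
    (hloc : ∀ (p : ℕ) [Fact p.Prime], Cov α β δ ℚ_[p]) :
    ∃ (s : ℤ) (t δ' : K → ℤ), s ≠ 0 ∧ (∀ k, t k ≠ 0) ∧ (∀ k, Squarefree (δ' k)) ∧
      (∀ k, s * δ k = δ' k * t k ^ 2) ∧ ∀ p : ℕ, p.Prime → z < p → ∀ i, (p : ℤ) ∣ δ' i →
        (∀ k, k ≠ i → ¬ (p : ℤ) ∣ δ' k) ∧ ngs δ' i p ∈ Ths (cc α β) i p := by
  classical
  have hne : Nonempty K := Fintype.card_pos_iff.1 (by omega)
  have hex3 : ∀ a b : K, ∃ k, k ≠ a ∧ k ≠ b := by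
    intro a b
    by_contra h
    push Not at h
    have h1 : (univ : Finset K) ⊆ {a, b} := by
      intro k _
      rw [mem_insert, mem_singleton]
      by_cases hk : k = a
      · exact Or.inl hk
      · exact Or.inr (h k hk)
    have h2 := card_le_card h1
    rw [card_univ] at h2
    have h3 : ({a, b} : Finset K).card ≤ 2 := card_le_two
    omega
  let Maj : ℕ → Prop := fun p => ∃ i : K, ∀ k, k ≠ i → Odd (padicValInt p (δ k))
  let W : Finset ℕ := (∏ k, (δ k).natAbs).primeFactors.filter (fun p => z < p ∧ Maj p)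
  have hW : ∀ p ∈ W, p.Prime := fun p hp =>
    Nat.prime_of_mem_primeFactors (mem_filter.1 hp).1
  let s : ℤ := ((∏ p ∈ W, p : ℕ) : ℤ)
  have hsq : Squarefree (∏ p ∈ W, p) := by
    apply Finset.squarefree_prod_of_pairwise_isCoprime
    · intro p hp q hq hpq
      rw [Function.onFun, Nat.coprime_iff_isRelPrime.symm]
      exact (Nat.coprime_primes (hW p hp) (hW q hq)).2 hpq
    · intro p hp
      exact (hW p hp).prime.squarefree
  have hs : Squarefree s := by
    rw [← Int.squarefree_natAbs]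
    change Squarefree (((∏ p ∈ W, p : ℕ) : ℤ)).natAbs
    rw [Int.natAbs_natCast]
    exact hsq
  have hs0 : s ≠ 0 := hs.ne_zero
  have hdvd : ∀ p : ℕ, p.Prime → z < p → ((p : ℤ) ∣ s ↔ Maj p) := by
    intro p hp hz
    have h1 : (p : ℤ) ∣ s ↔ p ∣ ∏ q ∈ W, q := by
      simp only [s]
      exact Int.natCast_dvd_natCast
    rw [h1, hp.prime.dvd_finsetProd_iff]
    constructor
    · rintro ⟨q, hq, hpq⟩
      have : p = q := (Nat.prime_dvd_prime_iff_eq hp (hW q hq)).1 hpq
      subst this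
      exact (mem_filter.1 hq).2.2
    · intro hm
      refine ⟨p, mem_filter.2 ⟨?_, hz, hm⟩, dvd_rfl⟩
      obtain ⟨i, hi⟩ := hm
      obtain ⟨k, hk, -⟩ := hex3 i i
      have h2 := hi k hk
      have h3 : (p : ℤ) ∣ δ k := by
        have : Fact p.Prime := ⟨hp⟩
        have h4 := padicValInt_dvd_iff (p := p) 1 (δ k)
        rw [pow_one] at h4
        rw [h4]
        right
        obtain ⟨m, hm⟩ := h2
        omega
      rw [Nat.mem_primeFactors]
      refine ⟨hp, (Int.natCast_dvd.1 h3).trans (Finset.dvd_prod_of_mem _ (mem_univ k)), ?_⟩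
      exact Finset.prod_ne_zero_iff.2 fun k _ => Int.natAbs_ne_zero.2 (hδ k)
  choose δ' t ht hδ' hst using fun k =>
    W311.TW.exists_sqf (s * δ k) (mul_ne_zero hs0 (hδ k))
  refine ⟨s, t, δ', hs0, ht, hδ', hst, ?_⟩
  intro p hp hz i hi
  have : Fact p.Prime := ⟨hp⟩
  have hiff : ∀ k, ((p : ℤ) ∣ δ' k ↔ (Maj p ↔ ¬ Odd (padicValInt p (δ k)))) := by
    intro k
    rw [← odd_val (hδ' k) (ht k) (hst k), val_mul hs0 (hδ k), Nat.odd_add,
      odd_val (p := p) (n := s) (a := s) (t := 1) hs one_ne_zero (by ring), hdvd p hp hz,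
      Nat.not_odd_iff_even]
  obtain ⟨i0, hsame, halt⟩ := loc hδ (fun i k hik => hc i k hik p hz) (hloc p)
  have hMaj : Maj p ↔ ∀ k, k ≠ i0 → Odd (padicValInt p (δ k)) := by
    constructor
    · rintro ⟨i1, h1⟩ k hk
      obtain ⟨l, hl1, hl0⟩ := hex3 i1 i0
      exact (hsame l k hl0 hk).1 (h1 l hl1)
    · intro h1
      exact ⟨i0, h1⟩
  have hnd : ∀ k, k ≠ i0 → ¬ (p : ℤ) ∣ δ' k := by
    intro k hk h1
    rw [hiff k] at h1
    by_cases h2 : Odd (padicValInt p (δ k))
    · exact (h1.1 (hMaj.2 fun l hl => (hsame k l hk hl).1 h2)) h2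
    · exact h2 (hMaj.1 (h1.2 h2) k hk)
  have hii : i = i0 := by
    by_contra h1
    exact hnd i h1 hi
  subst hii
  refine ⟨hnd, ?_⟩
  rcases halt with hall | hres
  · -- all parities are equal: impossible
    exfalso
    rw [hiff i] at hi
    obtain ⟨k, hk, -⟩ := hex3 i i
    by_cases h2 : Odd (padicValInt p (δ i))
    · exact (hi.1 (hMaj.2 fun l _ => (hall i l).1 h2)) h2
    · exact h2 ((hall k i).1 (hMaj.1 (hi.2 h2) k hk))
  · have hci : ∀ k, k ≠ i → ¬ (p : ℤ) ∣ cc α β i k := fun k hk => hc i k (Ne.symm hk) p hz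
    have hone : ∀ a : ℤ, ¬ (p : ℤ) ∣ a → jacobiSym a p = 1 ∨ jacobiSym a p = -1 := by
      intro a ha
      rw [← jacobiSym.legendreSym.to_jacobiSym]
      apply legendreSym.eq_one_or_neg_one
      intro h0
      exact ha ((ZMod.intCast_zmod_eq_zero_iff_dvd a p).mp h0)
    have hpp : Prime (p : ℤ) := Nat.prime_iff_prime_int.mp hp
    have hsym : ∀ k l, k ≠ i → l ≠ i →
        jacobiSym (δ' k * δ' l * (cc α β i k * cc α β i l)) p = 1 := by
      intro k l hk hl
      obtain ⟨ρ, hρ, hlt⟩ := hres k l hk hl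
      have hs0' : (s : ℚ_[p]) ≠ 0 := by exact_mod_cast hs0
      have htk : (t k : ℚ_[p]) ≠ 0 := by exact_mod_cast ht k
      have htl : (t l : ℚ_[p]) ≠ 0 := by exact_mod_cast ht l
      refine residue ?_ (ρ := ρ * s / (t k * t l))
        (div_ne_zero (mul_ne_zero hρ hs0') (mul_ne_zero htk htl)) ?_
      · intro h1
        rcases hpp.dvd_or_dvd h1 with h1 | h1 <;> rcases hpp.dvd_or_dvd h1 with h1 | h1
        · exact hnd k hk h1
        · exact hnd l hl h1
        · exact hci k hk h1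
        · exact hci l hl h1
      · have e1 : (s : ℚ_[p]) * δ k = δ' k * (t k : ℚ_[p]) ^ 2 := by exact_mod_cast hst k
        have e2 : (s : ℚ_[p]) * δ l = δ' l * (t l : ℚ_[p]) ^ 2 := by exact_mod_cast hst l
        have e3 : ((δ' k * δ' l * (cc α β i k * cc α β i l) : ℤ) : ℚ_[p]) /
            (ρ * s / (t k * t l)) ^ 2 =
            (δ k : ℚ_[p]) * δ l * (cc α β i k * cc α β i l) / ρ ^ 2 := by
          have g1 : (δ k : ℚ_[p]) = δ' k * (t k : ℚ_[p]) ^ 2 / s := by
            rw [← e1]; field_simp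
          have g2 : (δ l : ℚ_[p]) = δ' l * (t l : ℚ_[p]) ^ 2 / s := by
            rw [← e2]; field_simp
          rw [g1, g2]
          push_cast
          field_simp
        rw [e3]
        exact hlt
    obtain ⟨k0, hk0, -⟩ := hex3 i i
    refine W500.TW.ngs_mem hp hci (e := jacobiSym (δ' k0) p * jacobiSym (cc α β i k0) p) ?_ ?_
    · rcases hone _ (hnd k0 hk0) with h1 | h1 <;> rcases hone _ (hci k0 hk0) with h2 | h2 <;>
        rw [h1, h2] <;> norm_num
    · intro k hk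
      have h3 := hsym k k0 hk hk0
      rw [jacobiSym.mul_left, jacobiSym.mul_left, jacobiSym.mul_left] at h3
      rcases hone _ (hnd k0 hk0) with h1 | h1 <;> rcases hone _ (hci k0 hk0) with h2 | h2 <;>
        rcases hone _ (hnd k hk) with h4 | h4 <;> rcases hone _ (hci k hk) with h5 | h5 <;>
        rw [h1, h2, h4, h5] at h3 <;> rw [h4, h1, h2, h5] <;>
        first
        | rfl
        | (exfalso; norm_num at h3)

lemma sq_of_mul {a n b : ℤ} (ha : a ≠ 0) (h : a ^ 2 * n = b ^ 2) : IsSquare n := by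
  have h2 : a ∣ b := by
    rw [← Int.pow_dvd_pow_iff (n := 2) (by norm_num)]
    exact ⟨n, h.symm⟩
  obtain ⟨v, rfl⟩ := h2
  refine ⟨v, mul_left_cancel₀ (pow_ne_zero 2 ha) ?_⟩
  rw [h]
  ring

/-- the curve `d y² = ∏ k, (α k x + β k w)` has an everywhere locally soluble 2-covering that does
not come from a Weierstrass point -/
def BadL (α β : K → ℤ) (d : ℤ) : Prop :=
  ∃ δ : K → ℤ, (∀ k, δ k ≠ 0) ∧ IsSquare (d * ∏ k, δ k) ∧
    (∀ (p : ℕ) [Fact p.Prime], Cov α β δ ℚ_[p]) ∧ NC (cc α β) δ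

open W311.TW in
theorem redl (α β : K → ℤ) (hK : 3 ≤ Fintype.card K) (hev : Even (Fintype.card K))
    (hcc : ∀ i k, i ≠ k → cc α β i k ≠ 0) : ∃ z0 : ℕ, ∀ z, z0 ≤ z → ∀ X : ℕ,
    {d : ℤ | d.natAbs ≤ X ∧ Squarefree d ∧ BadL α β d}.ncard ≤
      (EE z).card * ∑ κ ∈ Fintype.piFinset (fun _ : K => EE z), cntS z X κ (cc α β) := by
  classical
  refine ⟨2 + ∑ i, ∑ k, (cc α β i k).natAbs, fun z hz X => ?_⟩
  have hnd : ∀ i k, i ≠ k → ∀ p : ℕ, z < p → ¬ (p : ℤ) ∣ cc α β i k := by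
    intro i k hik p hp hd
    have h1 : (cc α β i k).natAbs ≤ ∑ i, ∑ k, (cc α β i k).natAbs :=
      (Finset.single_le_sum (f := fun k => (cc α β i k).natAbs) (fun _ _ => Nat.zero_le _)
        (Finset.mem_univ k)).trans
      (Finset.single_le_sum (f := fun i => ∑ k, (cc α β i k).natAbs) (fun _ _ => Nat.zero_le _)
        (Finset.mem_univ i))
    have h2 := Nat.le_of_dvd (Int.natAbs_pos.mpr (hcc i k hik)) (Int.natCast_dvd.mp hd)
    omega
  set G : (K → ℤ) → Finset (K → ℕ) := fun κ =>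
    (Fintype.piFinset (fun _ : K => Icc 1 X)).filter (fun D => (∀ i, Rg z (D i)) ∧
    (∀ i j, i ≠ j → (D i).Coprime (D j)) ∧ ∏ i, D i ≤ X ∧
    (∀ i, ∀ p ∈ (D i).primeFactors, ngs (fun k => κ k * D k) i p ∈ Ths (cc α β) i p) ∧
    NC (cc α β) (fun k => κ k * D k)) with hG
  set Tt : Finset (ℤ × (Σ _ : K → ℤ, K → ℕ)) :=
    (EE z) ×ˢ ((Fintype.piFinset (fun _ : K => EE z)).sigma G) with hTt
  have hcard : Tt.card =
      (EE z).card * ∑ κ ∈ Fintype.piFinset (fun _ : K => EE z), cntS z X κ (cc α β) := by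
    rw [hTt, Finset.card_product, Finset.card_sigma]
    rfl
  rw [← hcard]
  have hsub : {d : ℤ | d.natAbs ≤ X ∧ Squarefree d ∧ BadL α β d} ⊆
      ((Tt.image (fun x => x.1 * ((∏ k, x.2.2 k : ℕ) : ℤ)) : Finset ℤ) : Set ℤ) := by
    rintro d ⟨hdX, hd, δ, hδ0, hsq, hloc, hNC⟩
    obtain ⟨s0, t, s, hs0, ht, hs, hst, hL⟩ := normalize (z := z) hK hδ0 hnd hloc
    obtain ⟨u, hu⟩ : IsSquare (d * ∏ k, s k) := by
      obtain ⟨r, hr⟩ := hsq
      obtain ⟨n, hn⟩ := hev
      have hT : (∏ k, t k) ≠ 0 := Finset.prod_ne_zero_iff.mpr fun k _ => ht k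
      apply sq_of_mul (a := ∏ k, t k) (b := r * s0 ^ n) hT
      have h1 : ∏ k, (s0 * δ k) = ∏ k, (s k * t k ^ 2) := Finset.prod_congr rfl fun k _ => hst k
      rw [Finset.prod_mul_distrib, Finset.prod_mul_distrib, Finset.prod_pow, Finset.prod_const,
        Finset.card_univ, hn] at h1
      have h2 : (r * s0 ^ n) ^ 2 = r * r * s0 ^ (n + n) := by ring
      rw [h2, ← hr]
      linear_combination (-d) * h1
    have hNC' : NC (cc α β) s := by
      intro i
      obtain ⟨k, l, hk, hl, hns⟩ := hNC i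
      refine ⟨k, l, hk, hl, ?_⟩
      rintro ⟨r, hr⟩
      apply hns
      apply sq_of_mul (a := s0) (b := r * (t k * t l)) hs0
      have e1 := hst k
      have e2 := hst l
      have e3 : (r * (t k * t l)) ^ 2 = (r * r) * (t k * t l) ^ 2 := by ring
      rw [e3, ← hr]
      have e4 : s0 ^ 2 * (δ k * δ l * (cc α β i k * cc α β i l)) =
          (s0 * δ k) * (s0 * δ l) * (cc α β i k * cc α β i l) := by ring
      rw [e4, e1, e2]
      ring
    have hdiv : ∀ p : ℕ, p.Prime → z < p → ((p : ℤ) ∣ d ↔ ∃ k, (p : ℤ) ∣ s k) := by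
      intro p hp hzp
      have hpZ : _root_.Prime (p : ℤ) := Nat.prime_iff_prime_int.mp hp
      have hpu : (p : ℤ) ∣ d * ∏ k, s k → (p : ℤ) ^ 2 ∣ d * ∏ k, s k := by
        intro h1
        rw [hu] at h1 ⊢
        have : (p : ℤ) ∣ u := by
          rcases hpZ.dvd_or_dvd h1 with h | h <;> exact h
        rw [← sq]
        exact pow_dvd_pow_of_dvd this 2
      constructor
      · intro h1
        by_contra h2
        push Not at h2
        have h3 := hpu (h1.mul_right _)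
        have h4 : ¬ (p : ℤ) ∣ ∏ k, s k := by
          rw [hpZ.dvd_finsetProd_iff]
          rintro ⟨k, -, hk⟩
          exact h2 k hk
        have h5 : (p : ℤ) ^ 2 ∣ d := by
          have hc : IsCoprime ((p : ℤ) ^ 2) (∏ k, s k) :=
            IsCoprime.pow_left ((Prime.coprime_iff_not_dvd hpZ).mpr h4)
          exact hc.dvd_of_dvd_mul_right h3
        exact hpZ.not_isUnit (hd _ (by rw [← sq]; exact h5))
      · rintro ⟨k, hk⟩
        by_contra h2
        have h3 := hpu (Dvd.dvd.mul_left (hk.trans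
          (Finset.dvd_prod_of_mem s (Finset.mem_univ k))) _)
        have hc : IsCoprime ((p : ℤ) ^ 2) d :=
          IsCoprime.pow_left ((Prime.coprime_iff_not_dvd hpZ).mpr h2)
        have h4 : (p : ℤ) ^ 2 ∣ ∏ k, s k := hc.dvd_of_dvd_mul_left h3
        rw [← Finset.mul_prod_erase _ _ (Finset.mem_univ k)] at h4
        have h5 : ¬ (p : ℤ) ∣ ∏ j ∈ Finset.univ.erase k, s j := by
          rw [hpZ.dvd_finsetProd_iff]
          rintro ⟨j, hj, hj'⟩
          exact (hL p hp hzp k hk).1 j (Finset.ne_of_mem_erase hj) hj'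
        have hc' : IsCoprime ((p : ℤ) ^ 2) (∏ j ∈ Finset.univ.erase k, s j) :=
          IsCoprime.pow_left ((Prime.coprime_iff_not_dvd hpZ).mpr h5)
        have h6 : (p : ℤ) ^ 2 ∣ s k := hc'.dvd_of_dvd_mul_right h4
        exact hpZ.not_isUnit (hs k _ (by rw [← sq]; exact h6))
    have hcop : ∀ i j, i ≠ j → (Dz z (s i)).Coprime (Dz z (s j)) := by
      intro i j hij
      rw [Nat.coprime_iff_gcd_eq_one]
      by_contra hg
      obtain ⟨p, hp, hpd⟩ := Nat.exists_prime_and_dvd hg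
      have h1 := (dvd_Dz (hs i) hp).mp (hpd.trans (Nat.gcd_dvd_left _ _))
      have h2 := (dvd_Dz (hs j) hp).mp (hpd.trans (Nat.gcd_dvd_right _ _))
      exact (hL p hp h1.1 i h1.2).1 j (Ne.symm hij) h2.2
    have hprod : ∏ k, Dz z (s k) = Dz z d := by
      have hs0 : ∀ k, (s k).natAbs ≠ 0 := fun k => by
        rw [Int.natAbs_ne_zero]; exact (hs k).ne_zero
      have hd0 : d.natAbs ≠ 0 := by
        rw [Int.natAbs_ne_zero]; exact hd.ne_zero
      unfold Dz
      rw [← Finset.prod_biUnion]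
      · apply Finset.prod_congr _ (fun _ _ => rfl)
        ext p
        simp only [Finset.mem_biUnion, Finset.mem_univ, true_and, Finset.mem_filter,
          Nat.mem_primeFactors]
        constructor
        · rintro ⟨k, ⟨hp, hpk, -⟩, hzp⟩
          exact ⟨⟨hp, Int.natCast_dvd.mp ((hdiv p hp hzp).mpr
            ⟨k, Int.natCast_dvd.mpr hpk⟩), hd0⟩, hzp⟩
        · rintro ⟨⟨hp, hpd, -⟩, hzp⟩
          obtain ⟨k, hk⟩ := (hdiv p hp hzp).mp (Int.natCast_dvd.mpr hpd)
          exact ⟨k, ⟨hp, Int.natCast_dvd.mp hk, hs0 k⟩, hzp⟩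
      · intro i _ j _ hij
        rw [Function.onFun, Finset.disjoint_left]
        intro p hp hp'
        rw [Finset.mem_filter, Nat.mem_primeFactors] at hp hp'
        exact (hL p hp.1.1 hp.2 i (Int.natCast_dvd.mpr hp.1.2.1)).1 j (Ne.symm hij)
          (Int.natCast_dvd.mpr hp'.1.2.1)
    choose κ hκ hκs using fun k => exists_EE (z := z) (hs k)
    obtain ⟨d0, hd0, hdd⟩ := exists_EE (z := z) hd
    have hPX : ∏ k, Dz z (s k) ≤ X := by
      rw [hprod]
      exact (Dz_le hd).trans hdX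
    rw [Finset.mem_coe, Finset.mem_image]
    refine ⟨(d0, ⟨κ, fun k => Dz z (s k)⟩), ?_, ?_⟩
    · rw [hTt, Finset.mem_product, Finset.mem_sigma]
      refine ⟨hd0, Fintype.mem_piFinset.mpr hκ, ?_⟩
      have h3 : (fun k => κ k * (Dz z (s k) : ℤ)) = s := by
        funext k
        exact (hκs k).symm
      rw [hG]
      simp only [Finset.mem_filter, Fintype.mem_piFinset, Finset.mem_Icc]
      refine ⟨fun k => ⟨Dz_pos, ?_⟩, fun i => Dz_sqf (hs i), hcop, hPX, ?_, ?_⟩
      · refine le_trans ?_ hPX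
        exact Finset.single_le_prod' (f := fun k => Dz z (s k)) (fun k _ => Dz_pos)
          (Finset.mem_univ k)
      · intro i p hp
        have hpp := Nat.prime_of_mem_primeFactors hp
        have h1 := (dvd_Dz (hs i) hpp).mp (Nat.dvd_of_mem_primeFactors hp)
        have h2 := (hL p hpp h1.1 i h1.2).2
        rw [h3]
        exact h2
      · rw [h3]
        exact hNC'
    · show d0 * ((∏ k, Dz z (s k) : ℕ) : ℤ) = d
      rw [hprod]
      exact hdd.symm
  calc _ ≤ ((Tt.image (fun x => x.1 * ((∏ k, x.2.2 k : ℕ) : ℤ)) : Finset ℤ) : Set ℤ).ncard :=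
        Set.ncard_le_ncard hsub (Finset.finite_toSet _)
    _ = (Tt.image (fun x => x.1 * ((∏ k, x.2.2 k : ℕ) : ℤ)) : Finset ℤ).card :=
        Set.ncard_coe_finset _
    _ ≤ Tt.card := Finset.card_image_le

end Pool.Agent.TH213.SP
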