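import Mathlib
import Pool.Agent.TH213.SP.RedL
import Pool.Agent.W313.BMX.Final

/-!
# Local points of twists of split hyperelliptic curves: the values of the linear forms
-/

set_option autoImplicit false

namespace Pool.Agent.TH213.SP

open Finset Pool.Agent.W262.TW

variable {K : Type} [Fintype K] [DecidableEq K]

/-- the value of the `k`-th linear form -/
def lf (α β : K → ℤ) {F : Type} [Field F] (x w : F) (k : K) : F := (α k : F) * x + β k * w

open Classical in
/-- the value of the `k`-th linear form modulo squares at a point of `d y² = ∏ k, lf k`; at a zero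
of this form it is computed from the other forms -/
noncomputable def lval (α β : K → ℤ) (d : ℤ) {F : Type} [Field F] (x w : F) (k : K) : F :=
  if lf α β x w k ≠ 0 then lf α β x w k else d * ∏ l ∈ univ.erase k, lf α β x w l

section field

variable {F : Type} [Field F] {α β : K → ℤ} {d : ℤ} {x w : F}

omit [Fintype K] [DecidableEq K] in
lemma lf_x (k l : K) : (cc α β k l : F) * x = β l * lf α β x w k - β k * lf α β x w l := by
  simp only [cc, lf]; push_cast; ring

omit [Fintype K] [DecidableEq K] in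
lemma lf_w (k l : K) : (cc α β k l : F) * w = α k * lf α β x w l - α l * lf α β x w k := by
  simp only [cc, lf]; push_cast; ring

omit [Fintype K] [DecidableEq K] in
lemma lf_ne_of_zero [CharZero F] (hne : ∀ i k, i ≠ k → cc α β i k ≠ 0) (hxw : x ≠ 0 ∨ w ≠ 0)
    {k l : K} (hkl : k ≠ l) (h : lf α β x w k = 0) : lf α β x w l ≠ 0 := by
  intro h2
  have hc : (cc α β k l : F) ≠ 0 := by exact_mod_cast hne k l hkl
  have h3 := lf_x (α := α) (β := β) (x := x) (w := w) k l
  have h4 := lf_w (α := α) (β := β) (x := x) (w := w) k l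
  rw [h, h2, mul_zero, mul_zero, sub_zero] at h3 h4
  rcases hxw with h5 | h5
  · exact h5 ((mul_eq_zero.1 h3).resolve_left hc)
  · exact h5 ((mul_eq_zero.1 h4).resolve_left hc)

lemma lval_of_ne {k : K} (h : lf α β x w k ≠ 0) : lval α β d x w k = lf α β x w k := by
  unfold lval
  rw [if_pos h]

lemma lval_of_eq {k : K} (h : lf α β x w k = 0) :
    lval α β d x w k = d * ∏ l ∈ univ.erase k, lf α β x w l := by
  unfold lval
  rw [if_neg (not_not.2 h)]

lemma lval_ne [CharZero F] (hne : ∀ i k, i ≠ k → cc α β i k ≠ 0) (hd : d ≠ 0)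
    (hxw : x ≠ 0 ∨ w ≠ 0) (k : K) : lval α β d x w k ≠ 0 := by
  by_cases h : lf α β x w k = 0
  · rw [lval_of_eq h]
    refine mul_ne_zero (by exact_mod_cast hd) (prod_ne_zero_iff.2 fun l hl => ?_)
    exact lf_ne_of_zero hne hxw (Ne.symm (ne_of_mem_erase hl)) h
  · rw [lval_of_ne h]
    exact h

lemma lval_sq [CharZero F] (hne : ∀ i k, i ≠ k → cc α β i k ≠ 0)
    (hxw : x ≠ 0 ∨ w ≠ 0) {y : F} (e : (d : F) * y ^ 2 = ∏ k, lf α β x w k) :
    IsSquare ((d : F) * ∏ k, lval α β d x w k) := by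
  by_cases hex : ∃ j, lf α β x w j = 0
  · obtain ⟨j, hj⟩ := hex
    refine ⟨d * ∏ l ∈ univ.erase j, lf α β x w l, ?_⟩
    rw [← mul_prod_erase univ _ (mem_univ j), lval_of_eq hj]
    have : ∏ l ∈ univ.erase j, lval α β d x w l = ∏ l ∈ univ.erase j, lf α β x w l :=
      prod_congr rfl fun l hl =>
        lval_of_ne (lf_ne_of_zero hne hxw (Ne.symm (ne_of_mem_erase hl)) hj)
    rw [this]
    ring
  · push Not at hex
    refine ⟨d * y, ?_⟩
    rw [prod_congr rfl fun k _ => lval_of_ne (hex k), ← e]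
    ring

/-- the form is the value times a square -/
lemma lf_eq (k : K) : ∃ t : F, lf α β x w k = lval α β d x w k * t ^ 2 := by
  by_cases h : lf α β x w k = 0
  · exact ⟨0, by rw [h]; ring⟩
  · exact ⟨1, by rw [lval_of_ne h]; ring⟩

end field

section padic

variable {p : ℕ} [Fact p.Prime] {α β : K → ℤ} {d : ℤ} {x w : ℚ_[p]}

omit [Fintype K] [DecidableEq K] in
/-- at most one form is small -/
lemma near [Nonempty K] (hc : ∀ i k, i ≠ k → ¬ (p : ℤ) ∣ cc α β i k) (hxw : x ≠ 0 ∨ w ≠ 0) :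
    0 < max ‖x‖ ‖w‖ ∧ ∃ j : K, ‖lf α β x w j‖ ≤ max ‖x‖ ‖w‖ ∧
      ∀ k, k ≠ j → ‖lf α β x w k‖ = max ‖x‖ ‖w‖ := by
  set M : ℝ := max ‖x‖ ‖w‖ with hM
  have hM0 : 0 < M := by
    rcases hxw with h | h
    · exact lt_max_of_lt_left (norm_pos_iff.2 h)
    · exact lt_max_of_lt_right (norm_pos_iff.2 h)
  have hcn : ∀ i k, i ≠ k → ‖(cc α β i k : ℚ_[p])‖ = 1 := by
    intro i k hik
    have h1 := hc i k hik
    rw [← Padic.norm_intCast_lt_one_iff] at h1
    exact le_antisymm (Padic.norm_int_le_one _) (not_lt.1 h1)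
  have hm : ∀ (n : ℤ) (a : ℚ_[p]), ‖(n : ℚ_[p]) * a‖ ≤ ‖a‖ := by
    intro n a
    rw [norm_mul]
    calc ‖(n : ℚ_[p])‖ * ‖a‖ ≤ 1 * ‖a‖ :=
          mul_le_mul_of_nonneg_right (Padic.norm_int_le_one _) (norm_nonneg _)
      _ = ‖a‖ := one_mul _
  have hLe : ∀ k, ‖lf α β x w k‖ ≤ M := fun k =>
    (Padic.nonarchimedean _ _).trans (max_le_max (hm _ _) (hm _ _))
  have hMle : ∀ i k, i ≠ k → M ≤ max ‖lf α β x w i‖ ‖lf α β x w k‖ := by
    intro i k hik
    have h1 := hcn i k hik
    apply max_le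
    · have e2 : ‖x‖ = ‖(β k : ℚ_[p]) * lf α β x w i - β i * lf α β x w k‖ := by
        rw [← lf_x, norm_mul, h1, one_mul]
      rw [e2, sub_eq_add_neg]
      refine (Padic.nonarchimedean _ _).trans (max_le_max (hm _ _) ?_)
      rw [norm_neg]
      exact hm _ _
    · have e2 : ‖w‖ = ‖(α i : ℚ_[p]) * lf α β x w k - α k * lf α β x w i‖ := by
        rw [← lf_w, norm_mul, h1, one_mul]
      rw [e2, sub_eq_add_neg, max_comm]
      refine (Padic.nonarchimedean _ _).trans (max_le_max (hm _ _) ?_)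
      rw [norm_neg]
      exact hm _ _
  refine ⟨hM0, ?_⟩
  by_cases hall : ∀ k, ‖lf α β x w k‖ = M
  · obtain ⟨i0⟩ := ‹Nonempty K›
    exact ⟨i0, hLe i0, fun k _ => hall k⟩
  · push Not at hall
    obtain ⟨i0, hi0⟩ := hall
    refine ⟨i0, hLe i0, fun k hk => ?_⟩
    have h1 := hMle i0 k (Ne.symm hk)
    rcases le_max_iff.1 h1 with h2 | h2
    · exact absurd h2 (not_le.2 (lt_of_le_of_ne (hLe i0) hi0))
    · exact le_antisymm (hLe k) h2

omit [Fintype K] [DecidableEq K] in
lemma val_prod {ι : Type} (s : Finset ι) (f : ι → ℚ_[p]) (hf : ∀ i ∈ s, f i ≠ 0) :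
    (∏ i ∈ s, f i).valuation = ∑ i ∈ s, (f i).valuation := by
  classical
  induction s using Finset.induction_on with
  | empty => simp
  | insert a s ha ih =>
    rw [prod_insert ha, sum_insert ha,
      Padic.valuation_mul (hf a (mem_insert_self _ _))
        (prod_ne_zero_iff.2 fun i hi => hf i (mem_insert_of_mem hi)),
      ih fun i hi => hf i (mem_insert_of_mem hi)]

lemma val_eq_of_norm {a b : ℚ_[p]} (ha : a ≠ 0) (hb : b ≠ 0) (h : ‖a‖ = ‖b‖) :
    a.valuation = b.valuation := by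
  have hp1 : (1 : ℝ) < p := by exact_mod_cast (Fact.out : p.Prime).one_lt
  rw [Padic.norm_eq_zpow_neg_valuation ha, Padic.norm_eq_zpow_neg_valuation hb] at h
  have h1 := zpow_right_injective₀ (by linarith) (by linarith) h
  exact neg_injective h1

/-- the valuations of the values -/
lemma lval_val (hK : 3 ≤ Fintype.card K) (hev : Even (Fintype.card K))
    (hc : ∀ i k, i ≠ k → ¬ (p : ℤ) ∣ cc α β i k) (hd : d ≠ 0) (hxw : x ≠ 0 ∨ w ≠ 0) {y : ℚ_[p]}
    (e : (d : ℚ_[p]) * y ^ 2 = ∏ k, lf α β x w k) :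
    ∃ (j : K) (μ : ℤ), (∀ k, k ≠ j → (lval α β d x w k).valuation = μ) ∧
      Even ((lval α β d x w j).valuation + μ + padicValInt p d) ∧
      (¬ Even (padicValInt p d : ℤ) → ‖lf α β x w j‖ < max ‖x‖ ‖w‖) := by
  have hKn : Nonempty K := Fintype.card_pos_iff.1 (by omega)
  obtain ⟨hM0, j, hj, hoth⟩ := near hc hxw
  set M : ℝ := max ‖x‖ ‖w‖ with hM
  have hd' : (d : ℚ_[p]) ≠ 0 := by exact_mod_cast hd
  obtain ⟨k0, hk0⟩ : ∃ k, k ≠ j := by
    have : Nontrivial K := Fintype.one_lt_card_iff_nontrivial.mp (by omega)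
    exact exists_ne j
  have hne : ∀ k, k ≠ j → lf α β x w k ≠ 0 := by
    intro k hk h
    have := hoth k hk
    rw [h, norm_zero] at this
    exact hM0.ne this
  set μ : ℤ := (lf α β x w k0).valuation with hμ
  have hval : ∀ k, k ≠ j → (lf α β x w k).valuation = μ := fun k hk =>
    val_eq_of_norm (hne k hk) (hne k0 hk0) ((hoth k hk).trans (hoth k0 hk0).symm)
  obtain ⟨n, hn⟩ := hev
  have hcard : (univ.erase j).card = n + n - 1 := by
    rw [card_erase_of_mem (mem_univ j), card_univ, hn]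
  have hpv : (∏ k ∈ univ.erase j, lf α β x w k).valuation = (2 * n - 1 : ℤ) * μ := by
    rw [val_prod _ _ fun k hk => hne k (ne_of_mem_erase hk),
      sum_congr rfl fun k hk => hval k (ne_of_mem_erase hk), sum_const, hcard, nsmul_eq_mul]
    congr 1
    have : 1 ≤ n + n := by omega
    push_cast [Nat.cast_sub this]
    ring
  have hpne : ∏ k ∈ univ.erase j, lf α β x w k ≠ 0 :=
    prod_ne_zero_iff.2 fun k hk => hne k (ne_of_mem_erase hk)
  have hpar : Even ((lval α β d x w j).valuation + μ + padicValInt p d) := by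
    by_cases h : lf α β x w j = 0
    · rw [lval_of_eq h, Padic.valuation_mul hd' hpne, Padic.valuation_intCast, hpv]
      exact ⟨padicValInt p d + n * μ, by ring⟩
    · rw [lval_of_ne h]
      have hy : y ≠ 0 := by
        rintro rfl
        rw [← mul_prod_erase univ _ (mem_univ j)] at e
        apply mul_ne_zero h hpne
        rw [← e]
        ring
      have h1 := congrArg Padic.valuation e
      rw [← mul_prod_erase univ _ (mem_univ j), Padic.valuation_mul h hpne, hpv,
        Padic.valuation_mul hd' (pow_ne_zero 2 hy), Padic.valuation_pow,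
        Padic.valuation_intCast] at h1
      refine ⟨padicValInt p d + y.valuation + μ - n * μ, ?_⟩
      push_cast at h1 ⊢
      linarith
  refine ⟨j, μ, fun k hk => ?_, hpar, fun hodd => ?_⟩
  · rw [lval_of_ne (hne k hk)]
    exact hval k hk
  · by_contra hlt
    have h1 : ‖lf α β x w j‖ = M := le_antisymm hj (not_lt.1 hlt)
    have h2 : lf α β x w j ≠ 0 := by
      intro h
      rw [h, norm_zero] at h1
      exact hM0.ne h1
    have h3 : (lf α β x w j).valuation = μ :=
      val_eq_of_norm h2 (hne k0 hk0) (h1.trans (hoth k0 hk0).symm)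
    rw [lval_of_ne h2, h3] at hpar
    apply hodd
    obtain ⟨r, hr⟩ := hpar
    exact ⟨r - μ, by linarith⟩

/-- an element of even valuation -/
lemma rep_even {a : ℚ_[p]} (ha : a ≠ 0) (h : Even a.valuation) :
    ∃ (m : ℤ) (c : ℚ_[p]), ¬ (p : ℤ) ∣ m ∧ c ≠ 0 ∧ a = m * c ^ 2 := by
  obtain ⟨t, m, c, ht, hm, hc, e⟩ := Pool.Agent.W310.BMX.odd4 p a ha
  have hm0 : (m : ℚ_[p]) ≠ 0 := by
    have : m ≠ 0 := by
      rintro rfl
      exact hm (dvd_zero _)
    exact_mod_cast this
  have hp0 : ((p : ℕ) : ℚ_[p]) ≠ 0 := by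
    have := (Fact.out : p.Prime).ne_zero
    exact_mod_cast this
  have h1 := congrArg Padic.valuation e
  push_cast at h1
  rw [Padic.valuation_mul (mul_ne_zero (pow_ne_zero t hp0) hm0) (pow_ne_zero 2 hc),
    Padic.valuation_mul (pow_ne_zero t hp0) hm0, Padic.valuation_pow, Padic.valuation_pow,
    Padic.valuation_p, Padic.valuation_intCast, padicValInt.eq_zero_iff.2 (Or.inr (Or.inr hm))]
    at h1
  have ht0 : t = 0 := by
    obtain ⟨r, hr⟩ := h
    push_cast at h1
    omega
  refine ⟨m, c, hm, hc, ?_⟩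
  rw [e, ht0]
  push_cast
  ring

end padic

end Pool.Agent.TH213.SP
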