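import Mathlib
import Pool.Agent.TH213.SP.BMLoc

/-!
# Adelic points of twists of split hyperelliptic curves which are orthogonal to the Brauer classes
-/

set_option autoImplicit false

namespace Pool.Agent.TH213.SP

open Finset Pool.Agent.W262.TW
open Pool.Agent.W313.BMX (Fam ram IsTest Splits diag isSquare_of_local isSquare_div)

/-- the product of two families -/
noncomputable def fmul (a b : Fam) : Fam := ⟨a.re * b.re, fun p => a.pa p * b.pa p⟩

lemma sq_of_mul_sq {F : Type} [Field F] {a b : F} (hb : b ≠ 0) (h : IsSquare (a * b ^ 2)) :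
    IsSquare a := by
  obtain ⟨r, hr⟩ := h
  refine ⟨r / b, ?_⟩
  field_simp
  linear_combination hr

lemma exists_sf' {m : ℤ} (hm0 : m ≠ 0) :
    ∃ m₀ s : ℤ, Squarefree m₀ ∧ s ≠ 0 ∧ m = m₀ * s ^ 2 := by
  obtain ⟨a, b, ha, hb, hab, hsq⟩ := Nat.sq_mul_squarefree_of_pos (Int.natAbs_pos.2 hm0)
  have hsq' : Squarefree (a : ℤ) := Int.squarefree_natCast.2 hsq
  have habZ : (m.natAbs : ℤ) = (b : ℤ) ^ 2 * a := by
    rw [← hab]
    push_cast
    ring
  rcases Int.natAbs_eq m with h | h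
  · exact ⟨a, b, hsq', by exact_mod_cast hb.ne', by rw [h, habZ]; ring⟩
  · refine ⟨-a, b, ?_, by exact_mod_cast hb.ne', by rw [h, habZ]; ring⟩
    intro x hx
    exact hsq' x ((dvd_neg).1 hx)

/-- the product formula for a family which is a rational number up to squares -/
lemma ev_of_rat {a : Fam} (hr0 : a.re ≠ 0) (hp0 : ∀ p, a.pa p ≠ 0) {u : ℚ} (hu : u ≠ 0)
    (hr : IsSquare (a.re * (u : ℝ))) (hp : ∀ p, IsSquare (a.pa p * (u : ℚ_[(p : ℕ)])))
    {e : ℤ} (he : IsTest e) : (ram a e).Finite ∧ Even (ram a e).ncard := by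
  have hN0 : u.num * (u.den : ℤ) ≠ 0 :=
    mul_ne_zero (Rat.num_ne_zero.2 hu) (by exact_mod_cast u.den_ne_zero)
  obtain ⟨n, s, hn, hs, hns⟩ := exists_sf' hN0
  have hn0 : n ≠ 0 := hn.ne_zero
  have hu' : u * (u.den : ℚ) ^ 2 = n * (s : ℚ) ^ 2 := by
    have h1 : (u.num : ℚ) = u * u.den := (Rat.mul_den_eq_num u).symm
    have h2 : (u.num : ℚ) * u.den = n * s ^ 2 := by exact_mod_cast hns
    rw [h1] at h2
    linear_combination h2
  have key : ∀ {F : Type} [Field F] [CharZero F] (v : F), v ≠ 0 → IsSquare (v * (u : F)) →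
      (Splits v (e : F) ↔ Splits (n : F) (e : F)) := by
    intro F _ _ v hv hvu
    have hnF : (n : F) ≠ 0 := by exact_mod_cast hn0
    have hsF : (s : F) ≠ 0 := by exact_mod_cast hs
    have hdF : (u.den : F) ≠ 0 := by exact_mod_cast u.den_ne_zero
    have huF : (u : F) * (u.den : F) ^ 2 = n * (s : F) ^ 2 := by
      have h1 := congrArg (fun q : ℚ => (q : F)) hu'
      push_cast at h1
      exact h1
    obtain ⟨r, hr⟩ := hvu
    have hr0 : r ≠ 0 := by
      rintro rfl
      rw [mul_zero] at hr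
      have huF0 : (u : F) ≠ 0 := by exact_mod_cast hu
      exact mul_ne_zero hv huF0 hr
    have e1 : v = n * (r * u.den / (n * s)) ^ 2 := by
      field_simp
      have e2 : v * (n * (s : F) ^ 2) = r ^ 2 * (u.den : F) ^ 2 := by
        rw [← huF]
        linear_combination (u.den : F) ^ 2 * hr
      linear_combination e2
    rw [e1, Pool.Agent.W313.BMX.splits_mul_sq
      (div_ne_zero (mul_ne_zero hr0 hdF) (mul_ne_zero hnF hsF))]
  have hram : ram a e = ram (diag n) e := by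
    ext v
    match v with
    | none => exact not_congr (key a.re hr0 hr)
    | some p => exact not_congr (key (a.pa p) (hp0 p) (hp p))
  rw [hram]
  exact Pool.Agent.W313.BMX.hrec n hn e he

section algebra

variable {K : Type} [Fintype K] [DecidableEq K] {F : Type} [Field F]

/-- the parity argument for the missing index -/
lemma same_of_type (hev : Even (Fintype.card K)) {a : K → F} (ha : ∀ k, a k ≠ 0)
    (hprod : IsSquare (∏ k, a k)) {i : K} (h : ∀ k l, k ≠ i → l ≠ i → IsSquare (a k * a l)) :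
    ∀ k l, IsSquare (a k * a l) := by
  have h2 : ∀ l, l ≠ i → IsSquare (a i * a l) := by
    intro l hl
    choose v hv using fun k : {k // k ≠ i} => h k l k.2 hl
    obtain ⟨m, hm⟩ : ∃ m, (univ.erase i).card = 2 * m + 1 := by
      obtain ⟨n, hn⟩ := hev
      have h1 : 0 < Fintype.card K := Fintype.card_pos_iff.2 ⟨i⟩
      rw [card_erase_of_mem (mem_univ i), card_univ]
      exact ⟨n - 1, by omega⟩
    set S : F := ∏ k ∈ univ.erase i, a k with hS
    have hS0 : S ≠ 0 := prod_ne_zero_iff.2 fun k _ => ha k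
    obtain ⟨w, hw⟩ : ∃ w, S * a l ^ (2 * m + 1) = w ^ 2 := by
      refine ⟨∏ k ∈ (univ.erase i).attach, v ⟨k.1, ne_of_mem_erase k.2⟩, ?_⟩
      rw [hS, ← hm, ← prod_const, ← prod_mul_distrib, ← prod_pow, ← prod_attach (univ.erase i)]
      refine prod_congr rfl fun k _ => ?_
      rw [hv ⟨k.1, ne_of_mem_erase k.2⟩]
      ring
    obtain ⟨u, hu⟩ := hprod
    rw [← mul_prod_erase univ _ (mem_univ i)] at hu
    apply sq_of_mul_sq (b := S * a l ^ m) (mul_ne_zero hS0 (pow_ne_zero m (ha l)))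
    refine ⟨u * w, ?_⟩
    have e3 : a i * a l * (S * a l ^ m) ^ 2 = (a i * S) * (S * a l ^ (2 * m + 1)) := by ring
    rw [e3, hu, hw]
    ring
  intro k l
  by_cases hk : k = i
  · by_cases hl : l = i
    · rw [hk, hl]
      exact ⟨a i, rfl⟩
    · rw [hk]
      exact h2 l hl
  · by_cases hl : l = i
    · rw [hl, mul_comm]
      exact h2 k hk
    · exact h k l hk hl

omit [DecidableEq K] in
/-- the product of representatives -/
lemma prod_rep (hev : Even (Fintype.card K)) {d : ℤ} {v : K → F} {n : K → ℤ} {k0 : K}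
    (hv : ∀ k, v k ≠ 0) (hsq : ∀ k, IsSquare (v k * v k0 * (n k : F)))
    (hd : IsSquare ((d : F) * ∏ k, v k)) : IsSquare (((d * ∏ k, n k : ℤ)) : F) := by
  obtain ⟨m, hm⟩ := hev
  choose r hr using hsq
  obtain ⟨s, hs⟩ := hd
  have hV : ∏ k, v k ≠ 0 := prod_ne_zero_iff.2 fun k _ => hv k
  apply sq_of_mul_sq (b := (∏ k, v k) * v k0 ^ m) (mul_ne_zero hV (pow_ne_zero m (hv k0)))
  refine ⟨s * ∏ k, r k, ?_⟩
  have h1 : (∏ k, v k) * (v k0 ^ m) ^ 2 * ∏ k, (n k : F) = (∏ k, r k) * ∏ k, r k := by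
    rw [← prod_mul_distrib, ← prod_congr rfl fun k _ => hr k, prod_mul_distrib, prod_mul_distrib,
      prod_const, card_univ, hm]
    ring
  push_cast
  linear_combination (∏ k, v k) * (v k0 ^ m) ^ 2 * (∏ k, (n k : F)) * hs + s * s * h1

end algebra

section main

variable {K : Type} [Fintype K] [DecidableEq K]

/-- at almost all primes the ratios of the values have even valuation -/
lemma fin_even {α β : K → ℤ} (hK : 3 ≤ Fintype.card K) (hev : Even (Fintype.card K))
    (hne : ∀ i k, i ≠ k → cc α β i k ≠ 0) {d : ℤ} (hd : d ≠ 0) :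
    ∃ z : ℕ, ∀ (p : ℕ) [Fact p.Prime], z < p → ∀ (x w y : ℚ_[p]), (x ≠ 0 ∨ w ≠ 0) →
      (d : ℚ_[p]) * y ^ 2 = ∏ k, lf α β x w k → ∀ k l, ∃ (m : ℤ) (c : ℚ_[p]),
        ¬ (p : ℤ) ∣ m ∧ c ≠ 0 ∧ lval α β d x w k * lval α β d x w l = m * c ^ 2 := by
  refine ⟨d.natAbs + ∑ i, ∑ k, (cc α β i k).natAbs, fun p hp hz x w y hxw e k l => ?_⟩
  have hc : ∀ i k, i ≠ k → ¬ (p : ℤ) ∣ cc α β i k := by
    intro i k hik hdv
    have h1 : (cc α β i k).natAbs ≤ ∑ i, ∑ k, (cc α β i k).natAbs :=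
      (Finset.single_le_sum (f := fun k => (cc α β i k).natAbs) (fun _ _ => Nat.zero_le _)
        (Finset.mem_univ k)).trans
      (Finset.single_le_sum (f := fun i => ∑ k, (cc α β i k).natAbs) (fun _ _ => Nat.zero_le _)
        (Finset.mem_univ i))
    have h2 := Nat.le_of_dvd (Int.natAbs_pos.mpr (hne i k hik)) (Int.natCast_dvd.mp hdv)
    omega
  have hpd : ¬ (p : ℤ) ∣ d := by
    intro h
    have h5 := Nat.le_of_dvd (Int.natAbs_pos.2 hd) (Int.natCast_dvd.1 h)
    omega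
  obtain ⟨j, μ, h1, h2, -⟩ := lval_val hK hev hc hd hxw e
  rw [padicValInt.eq_zero_iff.2 (Or.inr (Or.inr hpd))] at h2
  have h3 : ∀ k, Even ((lval α β d x w k).valuation + μ) := by
    intro k
    by_cases hk : k = j
    · rw [hk]
      simpa using h2
    · rw [h1 k hk]
      exact ⟨μ, rfl⟩
  have hk0 := lval_ne hne hd hxw k
  have hl0 := lval_ne hne hd hxw l
  apply rep_even (mul_ne_zero hk0 hl0)
  rw [Padic.valuation_mul hk0 hl0]
  obtain ⟨a, ha⟩ := h3 k
  obtain ⟨b, hb⟩ := h3 l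
  exact ⟨a + b - μ, by linarith⟩

/-- an orthogonal adelic point has everywhere the type of one Weierstrass point -/
theorem type_of_orth {α β : K → ℤ} (hK : 3 ≤ Fintype.card K) (hev : Even (Fintype.card K))
    (hne : ∀ i k, i ≠ k → cc α β i k ≠ 0) {d : ℤ} (hd : d ≠ 0) (hbad : ¬ BadL α β d)
    {xr wr yr : ℝ} {xp wp yp : ∀ p : Nat.Primes, ℚ_[(p : ℕ)]}
    (hr : xr ≠ 0 ∨ wr ≠ 0) (er : (d : ℝ) * yr ^ 2 = ∏ k, lf α β xr wr k)
    (hp : ∀ p, xp p ≠ 0 ∨ wp p ≠ 0)
    (ep : ∀ p : Nat.Primes, (d : ℚ_[(p : ℕ)]) * yp p ^ 2 = ∏ k, lf α β (xp p) (wp p) k)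
    (V : K → Fam) (hVr : ∀ k, (V k).re = lval α β d xr wr k)
    (hVp : ∀ k p, (V k).pa p = lval α β d (xp p) (wp p) k)
    (ho : ∀ k l e, IsTest e → Even (ram (fmul (V k) (V l)) e).ncard) :
    ∃ i, (∀ k l, k ≠ i → l ≠ i →
        IsSquare ((V k).re * (cc α β i k : ℝ) * ((V l).re * (cc α β i l : ℝ)))) ∧
      ∀ p : Nat.Primes, ∀ k l, k ≠ i → l ≠ i →
        IsSquare ((V k).pa p * (cc α β i k : ℚ_[(p : ℕ)]) *
          ((V l).pa p * (cc α β i l : ℚ_[(p : ℕ)]))) := by
  classical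
  have hKn : Nonempty K := Fintype.card_pos_iff.1 (by omega)
  obtain ⟨k0⟩ := hKn
  have hVr0 : ∀ k, (V k).re ≠ 0 := fun k => by rw [hVr]; exact lval_ne hne hd hr k
  have hVp0 : ∀ k p, (V k).pa p ≠ 0 := fun k p => by rw [hVp]; exact lval_ne hne hd (hp p) k
  obtain ⟨z, hz⟩ := fin_even hK hev hne hd
  have hex' : ∀ k, ∃ n : ℤ, Squarefree n ∧ IsSquare ((V k).re * (V k0).re * (n : ℝ)) ∧
      ∀ p : Nat.Primes, IsSquare ((V k).pa p * (V k0).pa p * (n : ℚ_[(p : ℕ)])) := by
    intro k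
    apply Pool.Agent.W313.BMX.hexact (fmul (V k) (V k0)) (mul_ne_zero (hVr0 k) (hVr0 k0))
      (fun p => mul_ne_zero (hVp0 k p) (hVp0 k0 p))
    · have h1 : {p : Nat.Primes | (p : ℕ) ≤ z}.Finite := by
        have h2 : (Set.Iic z).Finite := Set.finite_Iic z
        exact h2.preimage (Subtype.val_injective.injOn)
      apply h1.subset
      intro p hp'
      by_contra hpz
      have hpz' : z < (p : ℕ) := not_le.1 hpz
      obtain ⟨m, c, hm, -, hmc⟩ := hz (p : ℕ) hpz' (xp p) (wp p) (yp p) (hp p) (ep p) k k0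
      refine hp' m c hm ?_
      change (V k).pa p * (V k0).pa p = _
      rw [hVp, hVp]
      exact hmc
    · intro e he _
      exact ho k k0 e he
  choose n' hn1 hn2 hn3 using hex'
  set n : K → ℤ := fun k => if k = k0 then 1 else n' k with hn
  have hn0 : ∀ k, n k ≠ 0 := by
    intro k
    simp only [hn]
    split_ifs
    · exact one_ne_zero
    · exact (hn1 k).ne_zero
  have hnr : ∀ k, IsSquare ((V k).re * (V k0).re * (n k : ℝ)) := by
    intro k
    simp only [hn]
    split_ifs with h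
    · exact ⟨(V k0).re, by rw [h]; push_cast; ring⟩
    · exact hn2 k
  have hnp : ∀ k (p : Nat.Primes), IsSquare ((V k).pa p * (V k0).pa p * (n k : ℚ_[(p : ℕ)])) := by
    intro k p
    simp only [hn]
    split_ifs with h
    · exact ⟨(V k0).pa p, by rw [h]; push_cast; ring⟩
    · exact hn3 k p
  have hsqr : IsSquare ((d : ℝ) * ∏ k, (V k).re) := by
    rw [prod_congr rfl fun k _ => hVr k]
    exact lval_sq hne hr er
  have hsqp : ∀ p : Nat.Primes, IsSquare ((d : ℚ_[(p : ℕ)]) * ∏ k, (V k).pa p) := by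
    intro p
    rw [prod_congr rfl fun k _ => hVp k p]
    exact lval_sq hne (hp p) (ep p)
  have hdn : IsSquare (d * ∏ k, n k) := by
    apply isSquare_of_local
    · exact mul_ne_zero hd (prod_ne_zero_iff.2 fun k _ => hn0 k)
    · exact prod_rep hev hVr0 hnr hsqr
    · intro p
      exact prod_rep hev (fun k => hVp0 k p) (fun k => hnp k p) (hsqp p)
  have hcov : ∀ (p : ℕ) [Fact p.Prime], Cov α β n ℚ_[p] := by
    intro p hpp
    set P : Nat.Primes := ⟨p, hpp.out⟩ with hP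
    have h0 : (V k0).pa P ≠ 0 := hVp0 k0 P
    refine ⟨(V k0).pa P * xp P, (V k0).pa P * wp P, ?_, fun k => ?_⟩
    · rcases hp P with h | h
      · exact Or.inl (mul_ne_zero h0 h)
      · exact Or.inr (mul_ne_zero h0 h)
    · obtain ⟨t, ht⟩ := lf_eq (α := α) (β := β) (d := d) (x := xp P) (w := wp P) k
      obtain ⟨r, hr⟩ := hnp k P
      have hnk : (n k : ℚ_[p]) ≠ 0 := by exact_mod_cast hn0 k
      refine ⟨r * t / n k, ?_⟩
      have e1 : (α k : ℚ_[p]) * ((V k0).pa P * xp P) + β k * ((V k0).pa P * wp P) =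
          (V k0).pa P * ((V k).pa P * t ^ 2) := by
        rw [hVp k P, ← ht]
        simp only [lf]
        ring
      rw [e1]
      have e2 : (V k).pa P * (V k0).pa P * (n k : ℚ_[p]) = r * r := hr
      field_simp
      linear_combination t ^ 2 * e2
  have hNC : ¬ NC (cc α β) n := fun h => hbad ⟨n, hn0, hdn, hcov, h⟩
  unfold NC at hNC
  push Not at hNC
  obtain ⟨i, hi⟩ := hNC
  have fin : ∀ {F : Type} [Field F] [CharZero F] (v : K → F), (∀ k, v k ≠ 0) →
      (∀ k, IsSquare (v k * v k0 * (n k : F))) → ∀ k l, k ≠ i → l ≠ i →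
        IsSquare (v k * (cc α β i k : F) * (v l * (cc α β i l : F))) := by
    intro F _ _ v hv hvn k l hk hl
    obtain ⟨r, hr⟩ := hvn k
    obtain ⟨s, hs⟩ := hvn l
    obtain ⟨q, hq⟩ := hi k l hk hl
    have hqF : (n k : F) * n l * (cc α β i k * cc α β i l) = q * q := by exact_mod_cast hq
    have hnk : (n k : F) ≠ 0 := by exact_mod_cast hn0 k
    have hnl : (n l : F) ≠ 0 := by exact_mod_cast hn0 l
    apply sq_of_mul_sq (b := v k0 * n k * n l) (mul_ne_zero (mul_ne_zero (hv k0) hnk) hnl)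
    refine ⟨q * r * s, ?_⟩
    have e1 : v k * (cc α β i k : F) * (v l * (cc α β i l : F)) * (v k0 * n k * n l) ^ 2 =
        ((n k : F) * n l * (cc α β i k * cc α β i l)) * (v k * v k0 * n k) *
          (v l * v k0 * n l) := by ring
    rw [e1, hqF, hr, hs]
    ring
  exact ⟨i, fin (fun k => (V k).re) hVr0 hnr, fun p =>
    fin (fun k => (V k).pa p) (fun k => hVp0 k p) fun k => hnp k p⟩

end main

end Pool.Agent.TH213.SP
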