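import Mathlib
import Pool.Agent.TH213.SP.BMGlob

/-!
# Local points with the type of a Weierstrass point: real components and residue discs
-/

set_option autoImplicit false

namespace Pool.Agent.TH213.SP

open Finset Pool.Agent.W262.TW

variable {K : Type} [Fintype K] [DecidableEq K]

omit [DecidableEq K] in
/-- a rational point with `y = 0` is a Weierstrass point -/
lemma weier {α β : K → ℤ} (hK : 3 ≤ Fintype.card K) (hne : ∀ i k, i ≠ k → cc α β i k ≠ 0) {d : ℤ}
    {x w y : ℚ} (hxw : x ≠ 0 ∨ w ≠ 0) (e : (d : ℚ) * y ^ 2 = ∏ k, lf α β x w k) (hy : y = 0) :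
    ∃ (i : K) (c : ℚ), c ≠ 0 ∧ x = -(c * β i) ∧ w = c * α i ∧
      ∀ k, lf α β x w k = c * cc α β i k := by
  rw [hy, zero_pow two_ne_zero, mul_zero] at e
  obtain ⟨i, -, hi⟩ := prod_eq_zero_iff.1 e.symm
  obtain ⟨k, hk⟩ : ∃ k, k ≠ i := by
    have : Nontrivial K := Fintype.one_lt_card_iff_nontrivial.mp (by omega)
    exact exists_ne i
  have hc : (cc α β i k : ℚ) ≠ 0 := by exact_mod_cast hne i k (Ne.symm hk)
  have hlk : lf α β x w k ≠ 0 := lf_ne_of_zero hne hxw (Ne.symm hk) hi
  have h1 := lf_x (α := α) (β := β) (x := x) (w := w) i k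
  have h2 := lf_w (α := α) (β := β) (x := x) (w := w) i k
  rw [hi, mul_zero] at h1 h2
  have hx : x = -(lf α β x w k / cc α β i k * β i) := by
    field_simp
    linear_combination h1
  have hw : w = lf α β x w k / cc α β i k * α i := by
    field_simp
    linear_combination h2
  refine ⟨i, lf α β x w k / cc α β i k, div_ne_zero hlk hc, hx, hw, fun l => ?_⟩
  set c := lf α β x w k / cc α β i k with hcdef
  have : lf α β x w l = α l * x + β l * w := rfl
  rw [this, hx, hw]
  simp only [cc]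
  push_cast
  ring

/-- residue discs at the primes dividing `d` -/
lemma residue_of_type {α β : K → ℤ} (hK : 3 ≤ Fintype.card K) (hev : Even (Fintype.card K))
    {p : ℕ} [Fact p.Prime] (hc : ∀ i k, i ≠ k → ¬ (p : ℤ) ∣ cc α β i k) {d : ℤ}
    (hd : Squarefree d) (hpd : (p : ℤ) ∣ d) {x w y : ℚ_[p]} (hxw : x ≠ 0 ∨ w ≠ 0)
    (e : (d : ℚ_[p]) * y ^ 2 = ∏ k, lf α β x w k) {i : K} {c : ℚ} (hc0 : c ≠ 0) {u : K → ℚ}
    (hu : ∀ k, k ≠ i → u k = c * cc α β i k)
    (h : ∀ k l, IsSquare (lval α β d x w k * (u k : ℚ_[p]) *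
      (lval α β d x w l * (u l : ℚ_[p])))) :
    ‖lf α β x w i‖ < max ‖x‖ ‖w‖ := by
  have hne : ∀ i k, i ≠ k → cc α β i k ≠ 0 := by
    intro i k hik h0
    exact hc i k hik (h0 ▸ dvd_zero _)
  have hv1 : padicValInt p d = 1 := by
    have h1 : 1 ≤ padicValInt p d := by
      have := (padicValInt_dvd_iff (p := p) 1 d).1 (by rwa [pow_one])
      rcases this with h | h
      · exact absurd h hd.ne_zero
      · exact h
    have h2 : padicValInt p d ≤ 1 := by
      by_contra h3
      have h4 : (p : ℤ) ^ 2 ∣ d := (padicValInt_dvd_iff 2 d).2 (Or.inr (by omega))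
      have h5 : IsUnit (p : ℤ) := hd _ (by rwa [← sq])
      exact (Nat.prime_iff_prime_int.1 Fact.out).not_isUnit h5
    omega
  obtain ⟨j, μ, h1, h2, h3⟩ := lval_val hK hev hc hd.ne_zero hxw e
  rw [hv1] at h2 h3
  have hlt := h3 (by decide)
  by_cases hji : j = i
  · rwa [hji] at hlt
  · exfalso
    obtain ⟨l, hli, hlj⟩ : ∃ l, l ≠ i ∧ l ≠ j := by
      by_contra hcon
      push Not at hcon
      have h4 : (univ : Finset K) ⊆ {i, j} := by
        intro k _
        rw [mem_insert, mem_singleton]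
        by_cases hk : k = i
        · exact Or.inl hk
        · exact Or.inr (hcon k hk)
      have h5 := card_le_card h4
      have h6 := card_le_two (a := i) (b := j)
      rw [card_univ] at h5
      omega
    obtain ⟨r, hr⟩ := h j l
    have hcF : (c : ℚ_[p]) ≠ 0 := by exact_mod_cast hc0
    have hcj : ((cc α β i j : ℤ) : ℚ_[p]) ≠ 0 := by exact_mod_cast hne i j (Ne.symm hji)
    have hcl : ((cc α β i l : ℤ) : ℚ_[p]) ≠ 0 := by exact_mod_cast hne i l (Ne.symm hli)
    have hvj := lval_ne hne hd.ne_zero hxw j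
    have hvl := lval_ne hne hd.ne_zero hxw l
    have huj : (u j : ℚ_[p]) = c * (cc α β i j : ℤ) := by
      rw [hu j hji]
      push_cast
      ring
    have hul : (u l : ℚ_[p]) = c * (cc α β i l : ℤ) := by
      rw [hu l hli]
      push_cast
      ring
    rw [huj, hul] at hr
    have hL0 : lval α β d x w j * ((c : ℚ_[p]) * (cc α β i j : ℤ)) *
        (lval α β d x w l * ((c : ℚ_[p]) * (cc α β i l : ℤ))) ≠ 0 :=
      mul_ne_zero (mul_ne_zero hvj (mul_ne_zero hcF hcj)) (mul_ne_zero hvl (mul_ne_zero hcF hcl))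
    have hr0 : r ≠ 0 := by
      rintro rfl
      rw [mul_zero] at hr
      exact hL0 hr
    have h7 := congrArg Padic.valuation hr
    rw [Padic.valuation_mul (mul_ne_zero hvj (mul_ne_zero hcF hcj))
      (mul_ne_zero hvl (mul_ne_zero hcF hcl)), Padic.valuation_mul hvj (mul_ne_zero hcF hcj),
      Padic.valuation_mul hvl (mul_ne_zero hcF hcl), Padic.valuation_mul hcF hcj,
      Padic.valuation_mul hcF hcl, Padic.valuation_mul hr0 hr0, Padic.valuation_intCast,
      Padic.valuation_intCast, padicValInt.eq_zero_iff.2 (Or.inr (Or.inr (hc i j (Ne.symm hji)))),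
      padicValInt.eq_zero_iff.2 (Or.inr (Or.inr (hc i l (Ne.symm hli)))), h1 l hlj] at h7
    obtain ⟨q, hq⟩ := h2
    push_cast at h7 hq
    omega

/-- the path to the Weierstrass point -/
lemma path_of_type {α β : K → ℤ} (hK : 3 ≤ Fintype.card K)
    (hne : ∀ i k, i ≠ k → cc α β i k ≠ 0) {d : ℤ} (hd : d ≠ 0) {x w y : ℝ} (hxw : x ≠ 0 ∨ w ≠ 0)
    (e : (d : ℝ) * y ^ 2 = ∏ k, lf α β x w k) {i : K} {a b : ℝ} (hi : lf α β a b i = 0)
    {u : K → ℝ} (hu0 : ∀ k, u k ≠ 0) (hu : ∀ k, k ≠ i → u k = lf α β a b k)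
    (h : ∀ k l, IsSquare (lval α β d x w k * u k * (lval α β d x w l * u l))) :
    ∃ γ : ℝ → ℝ × ℝ × ℝ, Continuous γ ∧ γ 0 = (x, w, y) ∧
      (∃ c : ℝ, c ≠ 0 ∧ γ 1 = (c * a, c * b, 0)) ∧
      ∀ t, 0 ≤ t → t ≤ 1 → ((γ t).1 ≠ 0 ∨ (γ t).2.1 ≠ 0) ∧
        (d : ℝ) * (γ t).2.2 ^ 2 = ∏ k, ((α k : ℝ) * (γ t).1 + β k * (γ t).2.1) := by
  have hd' : (d : ℝ) ≠ 0 := by exact_mod_cast hd
  have hv0 : ∀ k, lval α β d x w k ≠ 0 := fun k => lval_ne hne hd hxw k
  obtain ⟨s, hs⟩ : ∃ s : K → ℝ, ∀ k, lf α β x w k = lval α β d x w k * s k ^ 2 :=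
    ⟨fun k => (lf_eq k).choose, fun k => (lf_eq k).choose_spec⟩
  -- the sign
  obtain ⟨ε, hε, hpos⟩ : ∃ ε : ℝ, (ε = 1 ∨ ε = -1) ∧ ∀ k, 0 < ε * (lval α β d x w k * u k) := by
    have h0 : ∀ k, lval α β d x w k * u k ≠ 0 := fun k => mul_ne_zero (hv0 k) (hu0 k)
    have h1 : ∀ k, 0 < lval α β d x w i * u i * (lval α β d x w k * u k) := by
      intro k
      obtain ⟨r, hr⟩ := h i k
      have h2 : 0 ≤ lval α β d x w i * u i * (lval α β d x w k * u k) := by
        rw [hr]
        exact mul_self_nonneg r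
      exact lt_of_le_of_ne h2 (Ne.symm (mul_ne_zero (h0 i) (h0 k)))
    rcases lt_or_gt_of_ne (h0 i) with h2 | h2
    · refine ⟨-1, Or.inr rfl, fun k => ?_⟩
      have h3 := h1 k
      have h4 : lval α β d x w k * u k < 0 := by
        by_contra h5
        push Not at h5
        exact absurd h3 (not_lt.2 (mul_nonpos_of_nonpos_of_nonneg h2.le h5))
      linarith
    · refine ⟨1, Or.inl rfl, fun k => ?_⟩
      rw [one_mul]
      exact (mul_pos_iff_of_pos_left h2).1 (h1 k)
  have hεne : ε ≠ 0 := by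
    rcases hε with h | h <;> rw [h] <;> norm_num
  -- the sign of `y`
  obtain ⟨σ, hσ, hσy⟩ : ∃ σ : ℝ, σ ^ 2 = 1 ∧ σ * |(d : ℝ) * y| = d * y := by
    rcases le_total 0 ((d : ℝ) * y) with h1 | h1
    · exact ⟨1, by norm_num, by rw [abs_of_nonneg h1, one_mul]⟩
    · exact ⟨-1, by norm_num, by rw [abs_of_nonpos h1]; ring⟩
  set X : ℝ → ℝ := fun t => (1 - t) * x + t * (ε * a) with hX
  set W : ℝ → ℝ := fun t => (1 - t) * w + t * (ε * b) with hW
  have hlf : ∀ t k, lf α β (X t) (W t) k = (1 - t) * lf α β x w k + t * (ε * lf α β a b k) := by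
    intro t k
    simp only [lf, hX, hW]
    ring
  have hlv : ∀ t, 0 ≤ t → t ≤ 1 → ∀ k, 0 ≤ lf α β (X t) (W t) k * lval α β d x w k := by
    intro t h0 h1 k
    rw [hlf, add_mul]
    apply add_nonneg
    · rw [hs k]
      have : (1 - t) * (lval α β d x w k * s k ^ 2) * lval α β d x w k =
          (1 - t) * (lval α β d x w k * s k) ^ 2 := by ring
      rw [this]
      exact mul_nonneg (by linarith) (sq_nonneg _)
    · by_cases hk : k = i
      · rw [hk, hi]
        simp
      · have h2 := hpos k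
        rw [hu k hk] at h2
        have : t * (ε * lf α β a b k) * lval α β d x w k =
          t * (ε * (lval α β d x w k * lf α β a b k)) := by ring
        rw [this]
        exact mul_nonneg h0 h2.le
  have hdv : 0 < (d : ℝ) * ∏ k, lval α β d x w k := by
    obtain ⟨r, hr⟩ := lval_sq hne hxw e
    have h1 : 0 ≤ (d : ℝ) * ∏ k, lval α β d x w k := by rw [hr]; exact mul_self_nonneg r
    exact lt_of_le_of_ne h1 (Ne.symm (mul_ne_zero hd' (prod_ne_zero_iff.2 fun k _ => hv0 k)))
  have hprod : ∀ t, 0 ≤ t → t ≤ 1 → 0 ≤ (d : ℝ) * ∏ k, lf α β (X t) (W t) k := by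
    intro t h0 h1
    have h2 : 0 ≤ ∏ k, (lf α β (X t) (W t) k * lval α β d x w k) :=
      prod_nonneg fun k _ => hlv t h0 h1 k
    rw [prod_mul_distrib] at h2
    by_contra h3
    push Not at h3
    have h4 : ((d : ℝ) * ∏ k, lf α β (X t) (W t) k) * (d * ∏ k, lval α β d x w k) < 0 :=
      mul_neg_of_neg_of_pos h3 hdv
    have h5 : 0 ≤ (d : ℝ) ^ 2 * ((∏ k, lf α β (X t) (W t) k) * ∏ k, lval α β d x w k) :=
      mul_nonneg (sq_nonneg _) h2
    nlinarith
  -- a form which does not vanish on the path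
  obtain ⟨k1, hk1, hk1'⟩ : ∃ k, k ≠ i ∧ lf α β x w k ≠ 0 := by
    obtain ⟨k1, hk1⟩ : ∃ k, k ≠ i := by
      have : Nontrivial K := Fintype.one_lt_card_iff_nontrivial.mp (by omega)
      exact exists_ne i
    by_cases h1 : lf α β x w k1 = 0
    · obtain ⟨l, hli, hlj⟩ : ∃ l, l ≠ i ∧ l ≠ k1 := by
        by_contra hcon
        push Not at hcon
        have h4 : (univ : Finset K) ⊆ {i, k1} := by
          intro k _
          rw [mem_insert, mem_singleton]
          by_cases hk : k = i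
          · exact Or.inl hk
          · exact Or.inr (hcon k hk)
        have h5 := card_le_card h4
        have h6 := card_le_two (a := i) (b := k1)
        rw [card_univ] at h5
        omega
      exact ⟨l, hli, lf_ne_of_zero hne hxw (Ne.symm hlj) h1⟩
    · exact ⟨k1, hk1, h1⟩
  have hnz : ∀ t, 0 ≤ t → t ≤ 1 → lf α β (X t) (W t) k1 ≠ 0 := by
    intro t h0 h1 h2
    have h3 := hlf t k1
    rw [h2] at h3
    have h4 := hpos k1
    rw [hu k1 hk1] at h4
    have h5 : 0 < lf α β x w k1 * lval α β d x w k1 := by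
      rw [hs k1]
      have h6 : s k1 ≠ 0 := by
        intro h7
        apply hk1'
        rw [hs k1, h7]
        ring
      have h8 : lval α β d x w k1 * s k1 ^ 2 * lval α β d x w k1 =
          (lval α β d x w k1 * s k1) ^ 2 := by ring
      rw [h8]
      exact lt_of_le_of_ne (sq_nonneg _) (Ne.symm (pow_ne_zero 2 (mul_ne_zero (hv0 k1) h6)))
    have h6 : 0 = (1 - t) * (lf α β x w k1 * lval α β d x w k1) +
        t * (ε * (lval α β d x w k1 * lf α β a b k1)) := by
      linear_combination lval α β d x w k1 * h3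
    rcases eq_or_lt_of_le h0 with h7 | h7
    · rw [← h7] at h6
      linarith
    · have h8 := mul_pos h7 h4
      have h9 : 0 ≤ (1 - t) * (lf α β x w k1 * lval α β d x w k1) :=
        mul_nonneg (by linarith) h5.le
      linarith
  refine ⟨fun t => (X t, W t, σ * Real.sqrt (d * ∏ k, lf α β (X t) (W t) k) / d), ?_, ?_, ?_, ?_⟩
  · have hXc : Continuous X := by fun_prop
    have hWc : Continuous W := by fun_prop
    have hPc : Continuous fun t => ∏ k, lf α β (X t) (W t) k := by
      apply continuous_finsetProd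
      intro k _
      simp only [lf]
      fun_prop
    fun_prop
  · have h1 : X 0 = x := by simp [hX]
    have h2 : W 0 = w := by simp [hW]
    simp only [h1, h2]
    rw [← e]
    have h3 : (d : ℝ) * (d * y ^ 2) = (d * y) ^ 2 := by ring
    rw [h3, Real.sqrt_sq_eq_abs, hσy, mul_div_cancel_left₀ _ hd']
  · refine ⟨ε, hεne, ?_⟩
    have h1 : X 1 = ε * a := by simp [hX]
    have h2 : W 1 = ε * b := by simp [hW]
    have h3 : ∏ k, lf α β (ε * a) (ε * b) k = 0 := by
      apply prod_eq_zero (mem_univ i)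
      have : lf α β (ε * a) (ε * b) i = ε * lf α β a b i := by
        simp only [lf]
        ring
      rw [this, hi, mul_zero]
    simp only [h1, h2, h3]
    simp
  · intro t h0 h1
    constructor
    · by_contra h2
      push Not at h2
      apply hnz t h0 h1
      have h3 : X t = 0 := h2.1
      have h4 : W t = 0 := h2.2
      rw [h3, h4]
      simp [lf]
    · change (d : ℝ) * (σ * Real.sqrt (d * ∏ k, lf α β (X t) (W t) k) / d) ^ 2 =
        ∏ k, lf α β (X t) (W t) k
      rw [div_pow, mul_pow, hσ, Real.sq_sqrt (hprod t h0 h1)]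
      field_simp

end Pool.Agent.TH213.SP
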