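import Mathlib
import Pool.Agent.W262.TW.Full
import Pool.Agent.TH213.SP.RedL
import Pool.Agent.TH213.SP.Gen

/-!
# 2-coverings of split hyperelliptic curves: the final estimate
-/

set_option autoImplicit false

namespace Pool.Agent.TH213.SP

open Finset Filter Pool.Agent.W262.TW

theorem finl {K : Type} [Fintype K] [DecidableEq K] (α β : K → ℤ) (hK : 6 ≤ Fintype.card K)
    (hev : Even (Fintype.card K)) (hg : Generic α β) :
    ∃ C : ℝ, ∀ X : ℕ, 3 ≤ X →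
      ({d : ℤ | d.natAbs ≤ X ∧ Squarefree d ∧ BadL α β d}.ncard : ℝ) ≤
        C * X * (Real.log X) ^ (-(1 / 5 : ℝ)) := by
  classical
  have hne : ∀ i k, i ≠ k → cc α β i k ≠ 0 := hg.1
  have h1 : ABS1 := abs1_all
  have h3 : REGS := W762.TW.regs
  have h4 : PRS := W554.TW.prs W578.TW.UBQ.ubq
  obtain ⟨z1, hz1⟩ := redl α β (by omega) hev hne
  obtain ⟨z2, hz2⟩ := h4 K (cc α β) (by omega) hne hg.2
  set z := max (max z1 z2) 2 with hz
  have hz1' : z1 ≤ z := (le_max_left _ _).trans (le_max_left _ _)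
  have hz2' : z2 ≤ z := (le_max_right _ _).trans (le_max_left _ _)
  have hz3 : 2 ≤ z := le_max_right _ _
  obtain ⟨C4, hC4, hP⟩ := hz2 z hz2'
  have hkey : ∀ κ : K → ℤ, ∃ C : ℝ, 0 ≤ C ∧ (κ ∈ Fintype.piFinset (fun _ : K => EE z) →
      ∀ᶠ X : ℕ in atTop, (cntS z X κ (cc α β) : ℝ) ≤ C * X * (Real.log X) ^ (-(1 / 5 : ℝ))) := by
    intro κ
    by_cases hκ : κ ∈ Fintype.piFinset (fun _ : K => EE z)
    · obtain ⟨C, hC0, hC⟩ := W460.TW.key h1 h3 (cc α β) z hz3 C4 hC4 κ hκ (hP κ hκ)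
      exact ⟨C, hC0, fun _ => hC⟩
    · exact ⟨0, le_rfl, fun h => absurd h hκ⟩
  choose Cκ hC0 hCκ using hkey
  set C1 : ℝ := (EE z).card * ∑ κ ∈ Fintype.piFinset (fun _ : K => EE z), Cκ κ with hC1
  have hC10 : 0 ≤ C1 := mul_nonneg (Nat.cast_nonneg _) (Finset.sum_nonneg fun κ _ => hC0 κ)
  have hev : ∀ᶠ X : ℕ in atTop,
      ({d : ℤ | d.natAbs ≤ X ∧ Squarefree d ∧ BadL α β d}.ncard : ℝ) ≤
        C1 * X * (Real.log X) ^ (-(1 / 5 : ℝ)) := by
    have hall : ∀ᶠ X : ℕ in atTop, ∀ κ ∈ Fintype.piFinset (fun _ : K => EE z),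
        (cntS z X κ (cc α β) : ℝ) ≤ Cκ κ * X * (Real.log X) ^ (-(1 / 5 : ℝ)) := by
      rw [Filter.eventually_all_finset]
      exact fun κ hκ => hCκ κ hκ
    filter_upwards [hall] with X hX
    have e1 := hz1 z hz1' X
    have e2 : ({d : ℤ | d.natAbs ≤ X ∧ Squarefree d ∧ BadL α β d}.ncard : ℝ) ≤
        (EE z).card * ∑ κ ∈ Fintype.piFinset (fun _ : K => EE z), (cntS z X κ (cc α β) : ℝ) := by
      exact_mod_cast e1
    refine e2.trans ?_
    calc _ ≤ ((EE z).card : ℝ) * ∑ κ ∈ Fintype.piFinset (fun _ : K => EE z),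
          Cκ κ * X * (Real.log X) ^ (-(1 / 5 : ℝ)) :=
          mul_le_mul_of_nonneg_left (Finset.sum_le_sum hX) (Nat.cast_nonneg _)
      _ = C1 * X * (Real.log X) ^ (-(1 / 5 : ℝ)) := by
          rw [← Finset.sum_mul, ← Finset.sum_mul, hC1]
          ring
  obtain ⟨X0, hX0⟩ := eventually_atTop.mp hev
  set D : ℝ := (Real.log (X0 + 3)) ^ (1 / 5 : ℝ) with hD
  have hD0 : 0 ≤ D := Real.rpow_nonneg (Real.log_nonneg (by
    have : (0 : ℝ) ≤ X0 := Nat.cast_nonneg _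
    linarith)) _
  refine ⟨C1 + 3 * D, fun X hX3 => ?_⟩
  have hX3' : (3 : ℝ) ≤ X := by exact_mod_cast hX3
  have hlog : 0 < Real.log (X : ℝ) := Real.log_pos (by linarith)
  have hlp : 0 < Real.log (X : ℝ) ^ (-(1 / 5 : ℝ)) := Real.rpow_pos_of_pos hlog _
  rcases le_or_gt X0 X with h | h
  · refine (hX0 X h).trans ?_
    have : 0 ≤ 3 * D * X * (Real.log X) ^ (-(1 / 5 : ℝ)) := by positivity
    nlinarith
  · have e1 : {d : ℤ | d.natAbs ≤ X ∧ Squarefree d ∧ BadL α β d} ⊆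
        (Finset.Icc (-(X : ℤ)) X : Finset ℤ) := by
      intro d hd
      have h5 : d.natAbs ≤ X := hd.1
      rw [Finset.coe_Icc, Set.mem_Icc]
      omega
    have e2 := Set.ncard_le_ncard e1 (Finset.finite_toSet _)
    rw [Set.ncard_coe_finset, Int.card_Icc] at e2
    have e3 : ({d : ℤ | d.natAbs ≤ X ∧ Squarefree d ∧ BadL α β d}.ncard : ℝ) ≤ 3 * X := by
      have : {d : ℤ | d.natAbs ≤ X ∧ Squarefree d ∧ BadL α β d}.ncard ≤ 3 * X := by omega
      exact_mod_cast this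
    refine e3.trans ?_
    have e4 : 1 ≤ D * Real.log (X : ℝ) ^ (-(1 / 5 : ℝ)) := by
      rw [Real.rpow_neg hlog.le, ← div_eq_mul_inv, le_div_iff₀ (Real.rpow_pos_of_pos hlog _),
        one_mul, hD]
      apply Real.rpow_le_rpow hlog.le _ (by norm_num)
      apply Real.log_le_log (by linarith)
      have : (X : ℝ) ≤ X0 := by exact_mod_cast h.le
      linarith
    have e5 : 0 ≤ C1 * X * (Real.log X) ^ (-(1 / 5 : ℝ)) := by positivity
    have e6 : 3 * (X : ℝ) * 1 ≤ 3 * X * (D * Real.log (X : ℝ) ^ (-(1 / 5 : ℝ))) :=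
      mul_le_mul_of_nonneg_left e4 (by positivity)
    calc 3 * (X : ℝ) = 3 * X * 1 := by ring
      _ ≤ 3 * X * (D * Real.log (X : ℝ) ^ (-(1 / 5 : ℝ))) := e6
      _ ≤ (C1 + 3 * D) * X * (Real.log X) ^ (-(1 / 5 : ℝ)) := by nlinarith

end Pool.Agent.TH213.SP
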